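import Mathlib

set_option autoImplicit false

namespace Pool.Agent.H506R3.Mag

open MeasureTheory Filter Topology
open scoped FourierTransform RealInnerProductSpace NNReal

variable {V : Type*} [NormedAddCommGroup V] [InnerProductSpace ℝ V] [FiniteDimensional ℝ V]
  [MeasurableSpace V] [BorelSpace V]

/-- positive semidefinite real function -/
def PSDFun (f : V → ℝ) : Prop :=
  ∀ (s : Finset V) (w : V → ℝ), 0 ≤ ∑ x ∈ s, ∑ y ∈ s, w x * w y * f (x - y)

omit [FiniteDimensional ℝ V] [BorelSpace V] [InnerProductSpace ℝ V] in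
lemma int_simple (μ : Measure V) [IsFiniteMeasure μ] (s : SimpleFunc V V) (φ : V → ℝ) :
    ∫ y, φ (s y) ∂μ = ∑ b ∈ s.range, μ.real (s ⁻¹' {b}) * φ b := by
  have h1 : ∀ y, φ (s y) = ∑ b ∈ s.range, Set.indicator (s ⁻¹' {b}) (fun _ => φ b) y := by
    intro y
    rw [Finset.sum_eq_single (s y)]
    · simp
    · intro b _ hb
      rw [Set.indicator_of_notMem]
      intro h
      exact hb (by simpa using h.symm)
    · intro h
      exact absurd (s.mem_range_self y) h
  simp_rw [h1]
  rw [integral_finsetSum]
  · refine Finset.sum_congr rfl fun b _ => ?_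
    rw [integral_indicator_const _ (s.measurableSet_preimage _), smul_eq_mul]
  · intro b _
    exact (integrable_const _).indicator (s.measurableSet_preimage _)

lemma psd_integral {f : V → ℝ} (hf : PSDFun f) (hc : Continuous f) (hb : ∀ x, |f x| ≤ 1)
    (μ : Measure V) [IsFiniteMeasure μ] (g : V → ℝ) (hg : Continuous g) (hgb : ∀ x, |g x| ≤ 1) :
    0 ≤ ∫ x, ∫ y, g x * g y * f (x - y) ∂μ ∂μ := by
  let s : ℕ → SimpleFunc V V := fun k =>
    SimpleFunc.approxOn id measurable_id Set.univ 0 (Set.mem_univ _) k
  have hs : ∀ x, Tendsto (fun k => s k x) atTop (𝓝 x) := by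
    intro x
    exact SimpleFunc.tendsto_approxOn measurable_id (Set.mem_univ _) (by simp)
  have hbd : ∀ a b : V, |g a * g b * f (a - b)| ≤ 1 := by
    intro a b
    rw [abs_mul, abs_mul]
    have h1 := hgb a
    have h2 := hgb b
    have h3 := hb (a - b)
    calc |g a| * |g b| * |f (a - b)| ≤ 1 * 1 * 1 := by gcongr
      _ = 1 := by norm_num
  have hinner : ∀ x, Tendsto (fun k => ∫ y, g (s k x) * g (s k y) * f (s k x - s k y) ∂μ) atTop
      (𝓝 (∫ y, g x * g y * f (x - y) ∂μ)) := by
    intro x
    refine tendsto_integral_of_dominated_convergence (fun _ => (1 : ℝ)) ?_ (integrable_const _)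
      ?_ ?_
    · intro k
      have h1 : Measurable fun y => s k y := (s k).measurable
      exact ((hg.measurable.comp h1).const_mul _ |>.mul
        (hc.measurable.comp (measurable_const.sub h1))).aestronglyMeasurable
    · intro k
      exact Filter.Eventually.of_forall fun y => hbd _ _
    · refine Filter.Eventually.of_forall fun y => ?_
      have h1 := (hg.tendsto x).comp (hs x)
      have h2 := (hg.tendsto y).comp (hs y)
      have h3 := (hc.tendsto (x - y)).comp ((hs x).sub (hs y))
      exact (h1.mul h2).mul h3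
  have houter : Tendsto (fun k => ∫ x, ∫ y, g (s k x) * g (s k y) * f (s k x - s k y) ∂μ ∂μ) atTop
      (𝓝 (∫ x, ∫ y, g x * g y * f (x - y) ∂μ ∂μ)) := by
    refine tendsto_integral_of_dominated_convergence (fun _ => μ.real Set.univ) ?_
      (integrable_const _) ?_ ?_
    · intro k
      have h1 : Measurable fun y => s k y := (s k).measurable
      have h2 : (fun x => ∫ y, g (s k x) * g (s k y) * f (s k x - s k y) ∂μ) =
          fun x => ∑ b ∈ (s k).range, μ.real ((s k) ⁻¹' {b}) *
            (g (s k x) * g b * f (s k x - b)) := by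
        funext x
        exact int_simple μ (s k) (fun b => g (s k x) * g b * f (s k x - b))
      rw [h2]
      refine (Finset.measurable_sum _ fun b _ => ?_).aestronglyMeasurable
      exact (((hg.measurable.comp h1).mul_const _).mul
        (hc.measurable.comp (h1.sub_const _))).const_mul _
    · intro k
      refine Filter.Eventually.of_forall fun x => ?_
      have := norm_integral_le_of_norm_le_const (μ := μ) (C := 1)
        (f := fun y => g (s k x) * g (s k y) * f (s k x - s k y))
        (Filter.Eventually.of_forall fun y => hbd _ _)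
      simpa using this
    · exact Filter.Eventually.of_forall fun x => hinner x
  refine ge_of_tendsto' houter fun k => ?_
  have h2 : ∀ x, ∫ y, g (s k x) * g (s k y) * f (s k x - s k y) ∂μ =
      ∑ b ∈ (s k).range, μ.real ((s k) ⁻¹' {b}) * (g (s k x) * g b * f (s k x - b)) :=
    fun x => int_simple μ (s k) (fun b => g (s k x) * g b * f (s k x - b))
  simp_rw [h2]
  rw [int_simple μ (s k) (fun a => ∑ b ∈ (s k).range,
    μ.real ((s k) ⁻¹' {b}) * (g a * g b * f (a - b)))]
  have h3 := hf (s k).range (fun a => μ.real ((s k) ⁻¹' {a}) * g a)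
  refine h3.trans_eq (Finset.sum_congr rfl fun a _ => ?_)
  rw [Finset.mul_sum]
  refine Finset.sum_congr rfl fun b _ => ?_
  ring

/-- Gaussian weight -/
noncomputable def gau (ε : ℝ) (x : V) : ℝ := Real.exp (-ε * ‖x‖ ^ 2)

lemma gau_pos (ε : ℝ) (x : V) : 0 < gau ε x := Real.exp_pos _

omit [FiniteDimensional ℝ V] [MeasurableSpace V] [BorelSpace V] [InnerProductSpace ℝ V] in
lemma gau_le_one {ε : ℝ} (hε : 0 ≤ ε) (x : V) : gau ε x ≤ 1 := by
  unfold gau
  rw [Real.exp_le_one_iff]
  nlinarith [sq_nonneg ‖x‖]

omit [FiniteDimensional ℝ V] [MeasurableSpace V] [BorelSpace V] [InnerProductSpace ℝ V] in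
lemma gau_cont (ε : ℝ) : Continuous (gau ε : V → ℝ) := by
  unfold gau; fun_prop

lemma gau_int {ε : ℝ} (hε : 0 < ε) : Integrable (gau ε : V → ℝ) := by
  have h := (GaussianFourier.integrable_cexp_neg_mul_sq_norm_add (V := V) (b := (ε : ℂ))
    (by simpa using hε) 0 0).re
  refine h.congr (Filter.Eventually.of_forall fun x => ?_)
  simp only [zero_mul, add_zero, gau]
  have : (-(ε : ℂ) * (‖x‖ : ℂ) ^ 2) = ((-ε * ‖x‖ ^ 2 : ℝ) : ℂ) := by push_cast; ring
  show (Complex.exp _).re = _
  rw [this, ← Complex.ofReal_exp, Complex.ofReal_re]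

lemma gau_conv {ε : ℝ} (z : V) :
    ∫ x, gau ε x * gau ε (x - z) = gau (ε / 2) z * ∫ x : V, gau (2 * ε) x := by
  have h1 : ∀ x : V, gau ε x * gau ε (x - z) = gau (ε / 2) z * gau (2 * ε) (x - (1 / 2 : ℝ) • z) := by
    intro x
    unfold gau
    rw [← Real.exp_add, ← Real.exp_add]
    congr 1
    rw [norm_sub_sq_real, norm_sub_sq_real, inner_smul_right, norm_smul, Real.norm_eq_abs,
      abs_of_pos (by norm_num : (0 : ℝ) < 1 / 2)]
    ring
  simp_rw [h1]
  rw [integral_const_mul, integral_sub_right_eq_self (fun x : V => gau (2 * ε) x)]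

/-- Positive semidefinite integrable functions have nonnegative Fourier transform. -/
lemma fourier_nonneg {f : V → ℝ} (hf : PSDFun f) (hc : Continuous f) (hb : ∀ x, |f x| ≤ 1)
    (hi : Integrable f) (ξ : V) : 0 ≤ ∫ x, f x * Real.cos (2 * Real.pi * ⟪x, ξ⟫) := by
  set F : V → ℝ := fun z => f z * Real.cos (2 * Real.pi * ⟪z, ξ⟫) with hF
  have hFc : Continuous F := by rw [hF]; fun_prop
  have hFi : Integrable F := by
    refine hi.mono hFc.aestronglyMeasurable (Filter.Eventually.of_forall fun x => ?_)
    rw [hF]
    simp only [norm_mul, Real.norm_eq_abs]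
    exact mul_le_of_le_one_right (abs_nonneg _) (Real.abs_cos_le_one _)
  have key : ∀ ε : ℝ, 0 < ε → 0 ≤ ∫ z, F z * gau (ε / 2) z := by
    intro ε hε
    let G : V → ℝ≥0 := fun x => Real.toNNReal (gau ε x)
    have hG : ∀ x, (G x : ℝ) = gau ε x := fun x => Real.coe_toNNReal _ (gau_pos _ _).le
    have hGm : Measurable G := (gau_cont ε).measurable.real_toNNReal
    let μ : Measure V := volume.withDensity fun x => (G x : ENNReal)
    have hfin : IsFiniteMeasure μ := by
      refine isFiniteMeasure_withDensity ?_
      have := (gau_int (V := V) hε).lintegral_lt_top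
      exact this.ne
    have h1 := psd_integral hf hc hb μ (fun x => Real.cos (2 * Real.pi * ⟪x, ξ⟫)) (by fun_prop)
      (fun x => Real.abs_cos_le_one _)
    have h2 := psd_integral hf hc hb μ (fun x => Real.sin (2 * Real.pi * ⟪x, ξ⟫)) (by fun_prop)
      (fun x => Real.abs_sin_le_one _)
    have hi1 : ∀ (u v : V → ℝ), Continuous u → Continuous v → (∀ x, |u x| ≤ 1) →
        (∀ x, |v x| ≤ 1) → ∀ x, Integrable (fun y => u x * v y * f (x - y)) μ := by
      intro u v hu hv hu1 hv1 x
      refine Integrable.mono' (integrable_const (1 : ℝ)) ?_ (Filter.Eventually.of_forall fun y => ?_)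
      · exact (by fun_prop : Continuous fun y => u x * v y * f (x - y)).aestronglyMeasurable
      · rw [Real.norm_eq_abs, abs_mul, abs_mul]
        calc |u x| * |v y| * |f (x - y)| ≤ 1 * 1 * 1 := by
              gcongr
              · exact hu1 x
              · exact hv1 y
              · exact hb _
          _ = 1 := by norm_num
    have hi2 : ∀ (u : V → ℝ), Continuous u → (∀ x, |u x| ≤ 1) →
        Integrable (fun x => ∫ y, u x * u y * f (x - y) ∂μ) μ := by
      intro u hu hu1
      have hint : Integrable (fun p : V × V => u p.1 * u p.2 * f (p.1 - p.2)) (μ.prod μ) := by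
        refine Integrable.mono' (integrable_const (1 : ℝ)) ?_
          (Filter.Eventually.of_forall fun p => ?_)
        · exact (by fun_prop : Continuous fun p : V × V =>
            u p.1 * u p.2 * f (p.1 - p.2)).aestronglyMeasurable
        · rw [Real.norm_eq_abs, abs_mul, abs_mul]
          calc |u p.1| * |u p.2| * |f (p.1 - p.2)| ≤ 1 * 1 * 1 := by
                gcongr
                · exact hu1 _
                · exact hu1 _
                · exact hb _
            _ = 1 := by norm_num
      exact hint.integral_prod_left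
    have h3 : (0 : ℝ) ≤ ∫ x, ∫ y, F (x - y) ∂μ ∂μ := by
      have := add_nonneg h1 h2
      rw [← integral_add (hi2 _ (by fun_prop) fun x => Real.abs_cos_le_one _)
        (hi2 _ (by fun_prop) fun x => Real.abs_sin_le_one _)] at this
      refine this.trans_eq (integral_congr_ae (Filter.Eventually.of_forall fun x => ?_))
      simp only
      rw [← integral_add (hi1 _ _ (by fun_prop) (by fun_prop) (fun x => Real.abs_cos_le_one _)
        (fun x => Real.abs_cos_le_one _) x) (hi1 _ _ (by fun_prop) (by fun_prop)
        (fun x => Real.abs_sin_le_one _) (fun x => Real.abs_sin_le_one _) x)]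
      refine integral_congr_ae (Filter.Eventually.of_forall fun y => ?_)
      simp only [hF, inner_sub_left, mul_sub, Real.cos_sub]
      ring
    have h4 : ∫ x, ∫ y, F (x - y) ∂μ ∂μ = ∫ x, ∫ z, (gau ε x * gau ε (x - z)) * F z := by
      rw [integral_withDensity_eq_integral_smul hGm]
      refine integral_congr_ae (Filter.Eventually.of_forall fun x => ?_)
      simp only
      rw [integral_withDensity_eq_integral_smul hGm]
      rw [← integral_sub_left_eq_self (fun y => G y • F (x - y)) volume x]
      rw [NNReal.smul_def, smul_eq_mul, ← integral_const_mul]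
      refine integral_congr_ae (Filter.Eventually.of_forall fun z => ?_)
      simp only [NNReal.smul_def, smul_eq_mul, hG, sub_sub_cancel]
      ring
    have h5 : ∫ x, ∫ z, (gau ε x * gau ε (x - z)) * F z =
        ∫ z, ∫ x, (gau ε x * gau ε (x - z)) * F z := by
      apply integral_integral_swap
      have hprod : Integrable (fun p : V × V => gau ε p.1 * F p.2) (volume.prod volume) :=
        (gau_int (V := V) hε).mul_prod hFi
      refine hprod.mono ?_ (Filter.Eventually.of_forall fun p => ?_)
      · have h6 : Continuous (gau ε : V → ℝ) := gau_cont ε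
        exact (by fun_prop : Continuous (Function.uncurry fun x z : V =>
          gau ε x * gau ε (x - z) * F z)).aestronglyMeasurable
      · simp only [Function.uncurry, norm_mul, Real.norm_eq_abs]
        rw [abs_of_pos (gau_pos ε p.1), abs_of_pos (gau_pos ε (p.1 - p.2))]
        have := gau_le_one hε.le (p.1 - p.2)
        have h7 := (gau_pos ε p.1).le
        have h8 := abs_nonneg (F p.2)
        calc gau ε p.1 * gau ε (p.1 - p.2) * |F p.2| ≤ gau ε p.1 * 1 * |F p.2| := by gcongr
          _ = _ := by ring
    rw [h4, h5] at h3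
    have h6 : ∀ z, ∫ x, (gau ε x * gau ε (x - z)) * F z =
        (∫ x : V, gau (2 * ε) x) * (F z * gau (ε / 2) z) := by
      intro z
      rw [integral_mul_const, gau_conv]
      ring
    simp_rw [h6] at h3
    rw [integral_const_mul] at h3
    have h7 : 0 < ∫ x : V, gau (2 * ε) x := by
      rw [integral_pos_iff_support_of_nonneg (fun x => (gau_pos _ _).le)
        (gau_int (by positivity))]
      have : Function.support (fun x : V => gau (2 * ε) x) = Set.univ := by
        ext x; simp [(gau_pos (2 * ε) x).ne']
      rw [this]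
      exact isOpen_univ.measure_pos volume ⟨0, trivial⟩
    exact nonneg_of_mul_nonneg_right h3 h7
  have hlim : Tendsto (fun k : ℕ => ∫ z, F z * gau ((1 / ((k : ℝ) + 1)) / 2) z) atTop
      (𝓝 (∫ z, F z)) := by
    refine tendsto_integral_of_dominated_convergence (fun z => |F z|) ?_ hFi.abs ?_ ?_
    · intro k
      have := gau_cont (V := V) ((1 / ((k : ℝ) + 1)) / 2)
      exact (hFc.mul this).aestronglyMeasurable
    · intro k
      refine Filter.Eventually.of_forall fun z => ?_
      rw [norm_mul, Real.norm_eq_abs, Real.norm_eq_abs, abs_of_pos (gau_pos _ z)]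
      exact mul_le_of_le_one_right (abs_nonneg _) (gau_le_one (by positivity) _)
    · refine Filter.Eventually.of_forall fun z => ?_
      have h1 : Tendsto (fun k : ℕ => gau ((1 / ((k : ℝ) + 1)) / 2) z) atTop (𝓝 1) := by
        have h2 : Tendsto (fun k : ℕ => -((1 / ((k : ℝ) + 1)) / 2) * ‖z‖ ^ 2) atTop
            (𝓝 (-(0 / 2) * ‖z‖ ^ 2)) :=
          ((tendsto_one_div_add_atTop_nhds_zero_nat.div_const 2).neg).mul_const _
        have h3 := (Real.continuous_exp.tendsto _).comp h2
        simpa [gau, Function.comp_def] using h3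
      simpa using h1.const_mul (F z)
  exact ge_of_tendsto' hlim fun k => key _ (by positivity)

end Pool.Agent.H506R3.Mag
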