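import Pool.Agent.H506R3.Mag.Boch

set_option autoImplicit false
set_option linter.unusedSectionVars false

namespace Pool.Agent.H506R3.Mag

open MeasureTheory Filter Topology
open scoped FourierTransform RealInnerProductSpace NNReal

variable {V : Type*} [NormedAddCommGroup V] [InnerProductSpace ℝ V] [FiniteDimensional ℝ V]
  [MeasurableSpace V] [BorelSpace V]

/-- cosine transform -/
noncomputable def ct (f : V → ℝ) (ξ : V) : ℝ := ∫ x, f x * Real.cos (2 * Real.pi * ⟪x, ξ⟫)

lemma fourier_eq_ct {f : V → ℝ} (hc : Continuous f) (hi : Integrable f) (he : ∀ x, f (-x) = f x)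
    (ξ : V) : 𝓕 (fun x => (f x : ℂ)) ξ = (ct f ξ : ℂ) := by
  rw [Real.fourier_eq']
  have h1 : ∀ v : V, Complex.exp (↑(-2 * Real.pi * ⟪v, ξ⟫) * Complex.I) • (f v : ℂ) =
      ((f v * Real.cos (2 * Real.pi * ⟪v, ξ⟫) : ℝ) : ℂ) -
        ((f v * Real.sin (2 * Real.pi * ⟪v, ξ⟫) : ℝ) : ℂ) * Complex.I := by
    intro v
    rw [Complex.exp_mul_I, ← Complex.ofReal_cos, ← Complex.ofReal_sin]
    rw [show -2 * Real.pi * ⟪v, ξ⟫ = -(2 * Real.pi * ⟪v, ξ⟫) by ring, Real.cos_neg, Real.sin_neg]
    push_cast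
    rw [smul_eq_mul]
    ring
  simp_rw [h1]
  have hb1 : Integrable fun v => f v * Real.cos (2 * Real.pi * ⟪v, ξ⟫) := by
    refine hi.mono (by fun_prop : Continuous _).aestronglyMeasurable
      (Filter.Eventually.of_forall fun x => ?_)
    simp only [norm_mul, Real.norm_eq_abs]
    exact mul_le_of_le_one_right (abs_nonneg _) (Real.abs_cos_le_one _)
  have hb2 : Integrable fun v => f v * Real.sin (2 * Real.pi * ⟪v, ξ⟫) := by
    refine hi.mono (by fun_prop : Continuous _).aestronglyMeasurable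
      (Filter.Eventually.of_forall fun x => ?_)
    simp only [norm_mul, Real.norm_eq_abs]
    exact mul_le_of_le_one_right (abs_nonneg _) (Real.abs_sin_le_one _)
  rw [integral_sub hb1.ofReal (hb2.ofReal.mul_const _)]
  rw [integral_mul_const, integral_complex_ofReal, integral_complex_ofReal]
  have h2 : ∫ v, f v * Real.sin (2 * Real.pi * ⟪v, ξ⟫) = 0 := by
    have h3 := integral_neg_eq_self (fun v => f v * Real.sin (2 * Real.pi * ⟪v, ξ⟫))
      (volume : Measure V)
    simp only [he, inner_neg_left, mul_neg, Real.sin_neg] at h3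
    rw [integral_neg] at h3
    linarith
  rw [h2]
  simp [ct]

lemma ct_cont {f : V → ℝ} (hc : Continuous f) (hi : Integrable f) (he : ∀ x, f (-x) = f x) :
    Continuous (ct f) := by
  have h1 : Continuous (𝓕 (fun x => (f x : ℂ))) := by
    have := VectorFourier.fourierIntegral_continuous (L := innerₗ V) (μ := volume)
      Real.continuous_fourierChar continuous_inner hi.ofReal (𝕜 := ℝ) (E := ℂ)
    exact this
  have h2 : ct f = fun ξ => (𝓕 (fun x => (f x : ℂ)) ξ).re := by
    funext ξ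
    rw [fourier_eq_ct hc hi he, Complex.ofReal_re]
  rw [h2]
  exact Complex.continuous_re.comp h1

lemma gau_ct_le {f : V → ℝ} (hc : Continuous f) (hb : ∀ x, |f x| ≤ 1) (hi : Integrable f)
    (he : ∀ x, f (-x) = f x) {ε : ℝ} (hε : 0 < ε) : ∫ ξ, gau ε ξ * ct f ξ ≤ 1 := by
  have hε' : 0 < ((ε : ℂ)).re := by simpa using hε
  have J : Integrable (fun w : V => Complex.exp (-(ε : ℂ) * ‖w‖ ^ 2)) := by
    simpa using GaussianFourier.integrable_cexp_neg_mul_sq_norm_add (V := V) hε' 0 0
  have h1 : ∫ w, 𝓕 (fun w : V => Complex.exp (-(ε : ℂ) * ‖w‖ ^ 2)) w • (f w : ℂ) =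
      ∫ w : V, Complex.exp (-(ε : ℂ) * ‖w‖ ^ 2) • 𝓕 (fun x => (f x : ℂ)) w := by
    simpa using! (VectorFourier.integral_fourierIntegral_smul_eq_flip (L := innerₗ V)
      Real.continuous_fourierChar continuous_inner J hi.ofReal)
  set K : ℝ := (Real.pi / ε) ^ (Module.finrank ℝ V / 2 : ℝ) with hK
  have hK0 : 0 < K := by positivity
  have h2 : ∀ w : V, 𝓕 (fun w : V => Complex.exp (-(ε : ℂ) * ‖w‖ ^ 2)) w • (f w : ℂ) =
      ((K * Real.exp (-(Real.pi ^ 2 / ε) * ‖w‖ ^ 2) * f w : ℝ) : ℂ) := by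
    intro w
    rw [fourier_gaussian_innerProductSpace hε', smul_eq_mul]
    rw [hK, Complex.ofReal_mul, Complex.ofReal_mul, Complex.ofReal_cpow (by positivity),
      Complex.ofReal_exp]
    push_cast
    congr 3
    ring
  have h3 : ∀ w : V, Complex.exp (-(ε : ℂ) * ‖w‖ ^ 2) • 𝓕 (fun x => (f x : ℂ)) w =
      ((gau ε w * ct f w : ℝ) : ℂ) := by
    intro w
    rw [fourier_eq_ct hc hi he, smul_eq_mul, gau, Complex.ofReal_mul, Complex.ofReal_exp]
    push_cast
    ring_nf
  simp_rw [h2, h3] at h1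
  rw [integral_complex_ofReal, integral_complex_ofReal, Complex.ofReal_inj] at h1
  rw [← h1]
  have hpi : 0 < Real.pi ^ 2 / ε := by positivity
  have h4 : Integrable (fun w : V => Real.exp (-(Real.pi ^ 2 / ε) * ‖w‖ ^ 2)) :=
    gau_int hpi
  calc ∫ w : V, K * Real.exp (-(Real.pi ^ 2 / ε) * ‖w‖ ^ 2) * f w
      ≤ ∫ w : V, K * Real.exp (-(Real.pi ^ 2 / ε) * ‖w‖ ^ 2) := by
        refine integral_mono ?_ (h4.const_mul K) ?_
        · refine (h4.const_mul K).mono (by fun_prop : Continuous _).aestronglyMeasurable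
            (Filter.Eventually.of_forall fun w => ?_)
          rw [norm_mul]
          exact mul_le_of_le_one_right (norm_nonneg _) (hb w)
        · intro w
          have h5 : 0 ≤ K * Real.exp (-(Real.pi ^ 2 / ε) * ‖w‖ ^ 2) := by positivity
          exact mul_le_of_le_one_right h5 ((le_abs_self _).trans (hb w))
    _ = 1 := by
        rw [integral_const_mul, GaussianFourier.integral_rexp_neg_mul_sq_norm hpi, hK,
          ← Real.mul_rpow (by positivity) (by positivity)]
        rw [show Real.pi / ε * (Real.pi / (Real.pi ^ 2 / ε)) = 1 by field_simp]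
        exact Real.one_rpow _

lemma ct_int {f : V → ℝ} (hf : PSDFun f) (hc : Continuous f) (hb : ∀ x, |f x| ≤ 1)
    (hi : Integrable f) (he : ∀ x, f (-x) = f x) : Integrable (ct f) := by
  have h0 : ∀ ξ, 0 ≤ ct f ξ := fourier_nonneg hf hc hb hi
  have hcc := ct_cont hc hi he
  have hbd : ∀ ξ, |ct f ξ| ≤ ∫ x, |f x| := by
    intro ξ
    have h1 : ‖ct f ξ‖ ≤ ∫ x, |f x| := by
      unfold ct
      refine norm_integral_le_of_norm_le hi.abs (Filter.Eventually.of_forall fun x => ?_)
      rw [norm_mul, Real.norm_eq_abs, Real.norm_eq_abs]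
      exact mul_le_of_le_one_right (abs_nonneg _) (Real.abs_cos_le_one _)
    exact h1
  refine ⟨hcc.aestronglyMeasurable, ?_⟩
  have hlim : ∀ ξ : V, Tendsto (fun k : ℕ => gau (1 / ((k : ℝ) + 1)) ξ * ct f ξ) atTop
      (𝓝 (ct f ξ)) := by
    intro ξ
    have h1 : Tendsto (fun k : ℕ => gau ((1 / ((k : ℝ) + 1))) ξ) atTop (𝓝 1) := by
      have h2 : Tendsto (fun k : ℕ => -((1 / ((k : ℝ) + 1))) * ‖ξ‖ ^ 2) atTop
          (𝓝 (-(0) * ‖ξ‖ ^ 2)) :=
        ((tendsto_one_div_add_atTop_nhds_zero_nat).neg).mul_const _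
      have h3 := (Real.continuous_exp.tendsto _).comp h2
      simpa [gau, Function.comp_def] using h3
    simpa using h1.mul_const (ct f ξ)
  have hk : ∀ k : ℕ, ∫⁻ ξ, ENNReal.ofReal (gau (1 / ((k : ℝ) + 1)) ξ * ct f ξ) ≤ 1 := by
    intro k
    have hpos : (0 : ℝ) < 1 / ((k : ℝ) + 1) := by positivity
    have hint : Integrable (fun ξ => gau (1 / ((k : ℝ) + 1)) ξ * ct f ξ) := by
      refine ((gau_int (V := V) hpos).mul_const (∫ x, |f x|)).mono
        ((gau_cont _).mul hcc).aestronglyMeasurable (Filter.Eventually.of_forall fun ξ => ?_)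
      rw [norm_mul, norm_mul]
      refine mul_le_mul_of_nonneg_left ?_ (norm_nonneg _)
      exact (hbd ξ).trans (le_abs_self _)
    rw [← ofReal_integral_eq_lintegral_ofReal hint
      (Filter.Eventually.of_forall fun ξ => mul_nonneg (gau_pos _ _).le (h0 ξ))]
    rw [ENNReal.ofReal_le_one]
    exact gau_ct_le hc hb hi he hpos
  have h1 : ∫⁻ ξ, ‖ct f ξ‖ₑ ≤ 1 := by
    have h2 : ∀ ξ, ‖ct f ξ‖ₑ =
        liminf (fun k : ℕ => ENNReal.ofReal (gau (1 / ((k : ℝ) + 1)) ξ * ct f ξ)) atTop := by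
      intro ξ
      rw [Real.enorm_eq_ofReal (h0 ξ)]
      exact ((ENNReal.tendsto_ofReal (hlim ξ)).liminf_eq).symm
    simp_rw [h2]
    refine (lintegral_liminf_le fun k => ?_).trans ?_
    · exact ((gau_cont _).mul hcc).measurable.ennreal_ofReal
    · refine liminf_le_of_frequently_le' (Filter.Frequently.of_forall fun k => hk k)
  exact lt_of_le_of_lt h1 ENNReal.one_lt_top

/-- **Bochner's theorem** for continuous integrable even functions. -/
theorem bochner {f : V → ℝ} (hf : PSDFun f) (hc : Continuous f) (hb : ∀ x, |f x| ≤ 1)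
    (hi : Integrable f) (he : ∀ x, f (-x) = f x) (h0 : f 0 = 1) :
    ∃ P : Measure V, IsProbabilityMeasure P ∧ ∀ x, charFun P x = (f x : ℂ) := by
  have hnn : ∀ ξ, 0 ≤ ct f ξ := fourier_nonneg hf hc hb hi
  have hcc := ct_cont hc hi he
  have hci := ct_int hf hc hb hi he
  have hF : 𝓕 (fun x => (f x : ℂ)) = fun ξ => (ct f ξ : ℂ) := funext (fourier_eq_ct hc hi he)
  have hinv : 𝓕⁻ (fun ξ => (ct f ξ : ℂ)) = fun x => (f x : ℂ) := by
    rw [← hF]
    refine Continuous.fourierInv_fourier_eq (by fun_prop) hi.ofReal ?_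
    rw [hF]
    exact hci.ofReal
  let G : V → ℝ≥0 := fun x => Real.toNNReal (ct f x)
  have hG : ∀ x, (G x : ℝ) = ct f x := fun x => Real.coe_toNNReal _ (hnn x)
  have hGm : Measurable G := hcc.measurable.real_toNNReal
  let Q : Measure V := volume.withDensity fun x => (G x : ENNReal)
  have hQ : IsFiniteMeasure Q := isFiniteMeasure_withDensity hci.lintegral_lt_top.ne
  let P : Measure V := Q.map (fun x => (2 * Real.pi) • x)
  have hPm : Measurable (fun x : V => (2 * Real.pi) • x) := by fun_prop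
  have hPf : IsFiniteMeasure P := Measure.isFiniteMeasure_map Q _
  have hchar : ∀ x, charFun P x = (f x : ℂ) := by
    intro x
    rw [charFun_apply, integral_map hPm.aemeasurable (by fun_prop)]
    rw [integral_withDensity_eq_integral_smul hGm]
    have h1 := congrFun hinv x
    rw [Real.fourierInv_eq'] at h1
    rw [← h1]
    refine integral_congr_ae (Filter.Eventually.of_forall fun ξ => ?_)
    simp only [NNReal.smul_def, hG, inner_smul_left, smul_eq_mul]
    rw [Complex.real_smul, mul_comm]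
    simp
  refine ⟨P, ⟨?_⟩, hchar⟩
  have h1 := hchar 0
  rw [charFun_zero, h0] at h1
  have h2 : P.real Set.univ = 1 := by exact_mod_cast h1
  rw [measureReal_def] at h2
  rw [← ENNReal.ofReal_toReal (measure_ne_top P Set.univ), h2, ENNReal.ofReal_one]

end Pool.Agent.H506R3.Mag
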