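import Mathlib

set_option autoImplicit false
set_option linter.unusedSectionVars false

namespace Pool.Agent.H506R3.Mag

open Finset

variable {ι : Type*} [Fintype ι] [DecidableEq ι]

/-- separation indicator -/
def sep (S : Finset ι) (i j : ι) : ℝ := if (i ∈ S ↔ j ∈ S) then 0 else 1

lemma sep_nonneg (S : Finset ι) (i j : ι) : 0 ≤ sep S i j := by
  unfold sep; split_ifs <;> norm_num

lemma sep_le_one (S : Finset ι) (i j : ι) : sep S i j ≤ 1 := by
  unfold sep; split_ifs <;> norm_num

/-- cut metric -/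
noncomputable def DD (lam : Finset ι → ℝ) (T : Finset (Finset ι)) (i j : ι) : ℝ :=
  ∑ S ∈ T, lam S * sep S i j

/-- quadratic form -/
noncomputable def QQ (lam : Finset ι → ℝ) (T : Finset (Finset ι)) (w : ι → ℝ) : ℝ :=
  ∑ i, ∑ j, w i * w j * Real.exp (-DD lam T i j)

lemma QQ_insert (lam : Finset ι → ℝ) (T : Finset (Finset ι)) (S : Finset ι) (hS : S ∉ T)
    (w : ι → ℝ) : QQ lam (insert S T) w = Real.exp (-lam S) * QQ lam T w +
      (1 - Real.exp (-lam S)) * (QQ lam T (fun i => if i ∈ S then w i else 0) +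
        QQ lam T (fun i => if i ∈ S then 0 else w i)) := by
  unfold QQ
  rw [← sum_add_distrib, mul_sum, mul_sum, ← sum_add_distrib]
  refine sum_congr rfl fun i _ => ?_
  rw [← sum_add_distrib, mul_sum, mul_sum, ← sum_add_distrib]
  refine sum_congr rfl fun j _ => ?_
  unfold DD
  rw [sum_insert hS, neg_add, Real.exp_add]
  unfold sep
  by_cases hi : i ∈ S <;> by_cases hj : j ∈ S <;> simp [hi, hj] <;> ring

lemma QQ_nonneg (lam : Finset ι → ℝ) (hlam : ∀ S, 0 ≤ lam S) (T : Finset (Finset ι)) :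
    ∀ w : ι → ℝ, 0 ≤ QQ lam T w := by
  induction T using Finset.induction_on with
  | empty =>
    intro w
    have : QQ lam ∅ w = (∑ i, w i) ^ 2 := by
      unfold QQ DD
      simp only [sum_empty, neg_zero, Real.exp_zero, mul_one]
      rw [sq, sum_mul_sum]
    rw [this]
    exact sq_nonneg _
  | insert S T hS ih =>
    intro w
    rw [QQ_insert lam T S hS]
    have h1 : Real.exp (-lam S) ≤ 1 := Real.exp_le_one_iff.2 (neg_nonpos.2 (hlam S))
    have h2 := ih w
    have h3 := ih (fun i => if i ∈ S then w i else 0)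
    have h4 := ih (fun i => if i ∈ S then 0 else w i)
    have h5 := (Real.exp_pos (-lam S)).le
    exact add_nonneg (mul_nonneg h5 h2) (mul_nonneg (by linarith) (add_nonneg h3 h4))

lemma QQ_union (lam : Finset ι → ℝ) (hlam : ∀ S, 0 ≤ lam S) (T : Finset (Finset ι)) (w : ι → ℝ)
    (B : Finset (Finset ι)) (hTB : Disjoint T B) :
    Real.exp (-∑ S ∈ B, lam S) * QQ lam T w ≤ QQ lam (B ∪ T) w := by
  induction B using Finset.induction_on with
  | empty => simp
  | insert S B hS ih =>
    have hd : Disjoint T B := hTB.mono_right (subset_insert S B)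
    have hST : S ∉ T := fun h => (disjoint_left.1 hTB h) (mem_insert_self S B)
    have hSBT : S ∉ B ∪ T := by simp [hS, hST]
    rw [sum_insert hS, neg_add, Real.exp_add, insert_union, QQ_insert lam (B ∪ T) S hSBT]
    have h1 : Real.exp (-lam S) ≤ 1 := Real.exp_le_one_iff.2 (neg_nonpos.2 (hlam S))
    have h3 := QQ_nonneg lam hlam (B ∪ T) (fun i => if i ∈ S then w i else 0)
    have h4 := QQ_nonneg lam hlam (B ∪ T) (fun i => if i ∈ S then 0 else w i)
    have h5 := (Real.exp_pos (-lam S)).le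
    have h6 := mul_le_mul_of_nonneg_left (ih hd) h5
    have h7 : 0 ≤ (1 - Real.exp (-lam S)) * (QQ lam (B ∪ T) (fun i => if i ∈ S then w i else 0) +
        QQ lam (B ∪ T) (fun i => if i ∈ S then 0 else w i)) :=
      mul_nonneg (by linarith) (add_nonneg h3 h4)
    calc _ = Real.exp (-lam S) * (Real.exp (-∑ S ∈ B, lam S) * QQ lam T w) := by ring
      _ ≤ _ := by linarith

lemma exp_diff {a b : ℝ} (ha : 0 ≤ a) (hab : a ≤ b) :
    |Real.exp (-b) - Real.exp (-a)| ≤ b - a := by
  have h1 : Real.exp (-b) ≤ Real.exp (-a) := Real.exp_le_exp.2 (by linarith)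
  rw [abs_sub_comm, abs_of_nonneg (by linarith)]
  have h2 : Real.exp (-b) = Real.exp (-a) * Real.exp (-(b - a)) := by
    rw [← Real.exp_add]; congr 1; ring
  have h3 := Real.add_one_le_exp (-(b - a))
  have h4 : Real.exp (-a) ≤ 1 := Real.exp_le_one_iff.2 (by linarith)
  have h5 := Real.exp_pos (-a)
  rw [h2]
  have h6 : Real.exp (-a) - Real.exp (-a) * Real.exp (-(b - a)) =
    Real.exp (-a) * (1 - Real.exp (-(b - a))) := by ring
  rw [h6]
  have h7 : 1 - Real.exp (-(b - a)) ≤ b - a := by linarith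
  calc Real.exp (-a) * (1 - Real.exp (-(b - a))) ≤ Real.exp (-a) * (b - a) := by gcongr
    _ ≤ 1 * (b - a) := by gcongr
    _ = b - a := one_mul _

variable {κ : Type*} [Fintype κ] [DecidableEq κ]

/-- The block inequality for cut metrics. -/
theorem block_cut (lam : Finset ι → ℝ) (hlam : ∀ S, 0 ≤ lam S) (b : ι → κ) (e : κ → ι)
    (hbe : ∀ k, b (e k) = k) (Bad : Finset (Finset ι))
    (hgood : ∀ S, S ∉ Bad → ∀ i j, b i = b j → (i ∈ S ↔ j ∈ S)) (w : ι → ℝ) :
    (∑ k, ∑ l, (∑ i with b i = k, w i) * (∑ i with b i = l, w i) *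
      Real.exp (-DD lam univ (e k) (e l))) -
      (∑ S ∈ Bad, lam S) * (∑ k, |∑ i with b i = k, w i|) ^ 2 ≤ QQ lam univ w := by
  set Λ := ∑ S ∈ Bad, lam S with hΛ
  have hΛ0 : 0 ≤ Λ := sum_nonneg fun S _ => hlam S
  set m : κ → ℝ := fun k => ∑ i with b i = k, w i with hm
  have hu : (univ : Finset (Finset ι)) = Bad ∪ Badᶜ := by simp
  have h1 := QQ_union lam hlam Badᶜ w Bad disjoint_compl_left
  rw [← hu] at h1
  refine le_trans ?_ h1
  have hblock : ∀ i j, DD lam Badᶜ i j = DD lam Badᶜ (e (b i)) (e (b j)) := by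
    intro i j
    unfold DD
    refine sum_congr rfl fun S hS => ?_
    have hS' : S ∉ Bad := mem_compl.1 hS
    have h2 := hgood S hS' i (e (b i)) (hbe _).symm
    have h3 := hgood S hS' j (e (b j)) (hbe _).symm
    have h4 : (i ∈ S ↔ j ∈ S) ↔ (e (b i) ∈ S ↔ e (b j) ∈ S) := by rw [h2, h3]
    unfold sep
    simp only [h4]
  have hQ : QQ lam Badᶜ w = ∑ k, ∑ l, m k * m l * Real.exp (-DD lam Badᶜ (e k) (e l)) := by
    unfold QQ
    have h2 : ∀ i, ∑ j, w i * w j * Real.exp (-DD lam Badᶜ i j) =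
        ∑ l, w i * m l * Real.exp (-DD lam Badᶜ (e (b i)) (e l)) := by
      intro i
      rw [← sum_fiberwise_of_maps_to (s := univ) (t := univ) (g := b) (fun _ _ => mem_univ _)]
      refine sum_congr rfl fun l _ => ?_
      rw [hm]
      simp only
      rw [mul_sum, sum_mul]
      refine sum_congr rfl fun j hj => ?_
      have hj' : b j = l := (mem_filter.1 hj).2
      rw [hblock i j, hj']
    simp_rw [h2]
    rw [← sum_fiberwise_of_maps_to (s := univ) (t := univ) (g := b) (fun _ _ => mem_univ _)]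
    refine sum_congr rfl fun k _ => ?_
    rw [sum_comm]
    refine sum_congr rfl fun l _ => ?_
    rw [show m k = ∑ i with b i = k, w i from rfl, sum_mul, sum_mul]
    refine sum_congr rfl fun i hi => ?_
    have hi' : b i = k := (mem_filter.1 hi).2
    rw [hi']
  rw [hQ, mul_sum]
  have hterm : ∀ k l, m k * m l * Real.exp (-DD lam univ (e k) (e l)) - Λ * (|m k| * |m l|) ≤
      Real.exp (-Λ) * (m k * m l * Real.exp (-DD lam Badᶜ (e k) (e l))) := by
    intro k l
    have hsplit : DD lam univ (e k) (e l) = DD lam Bad (e k) (e l) + DD lam Badᶜ (e k) (e l) := by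
      unfold DD
      rw [sum_add_sum_compl]
    have hB0 : 0 ≤ DD lam Bad (e k) (e l) :=
      sum_nonneg fun S _ => mul_nonneg (hlam S) (sep_nonneg _ _ _)
    have hB1 : DD lam Bad (e k) (e l) ≤ Λ :=
      sum_le_sum fun S _ => mul_le_of_le_one_right (hlam S) (sep_le_one _ _ _)
    have hG0 : 0 ≤ DD lam Badᶜ (e k) (e l) :=
      sum_nonneg fun S _ => mul_nonneg (hlam S) (sep_nonneg _ _ _)
    have h2 := exp_diff (a := DD lam univ (e k) (e l)) (b := Λ + DD lam Badᶜ (e k) (e l))
      (by rw [hsplit]; linarith) (by rw [hsplit]; linarith)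
    have h3 : |Real.exp (-(Λ + DD lam Badᶜ (e k) (e l))) - Real.exp (-DD lam univ (e k) (e l))| ≤ Λ := by
      refine h2.trans ?_
      rw [hsplit]; linarith
    have h4 : Real.exp (-(Λ + DD lam Badᶜ (e k) (e l))) =
        Real.exp (-Λ) * Real.exp (-DD lam Badᶜ (e k) (e l)) := by
      rw [← Real.exp_add]; congr 1; ring
    have h5 : |m k * m l * (Real.exp (-(Λ + DD lam Badᶜ (e k) (e l))) -
        Real.exp (-DD lam univ (e k) (e l)))| ≤ |m k| * |m l| * Λ := by
      rw [abs_mul, abs_mul]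
      gcongr
    have h6 := (abs_le.1 h5).1
    rw [h4] at h6
    linarith
  calc (∑ k, ∑ l, m k * m l * Real.exp (-DD lam univ (e k) (e l))) - Λ * (∑ k, |m k|) ^ 2
      = ∑ k, ∑ l, (m k * m l * Real.exp (-DD lam univ (e k) (e l)) - Λ * (|m k| * |m l|)) := by
        simp_rw [sum_sub_distrib]
        congr 1
        rw [sq, sum_mul_sum, mul_sum]
        refine sum_congr rfl fun k _ => ?_
        rw [mul_sum]
    _ ≤ ∑ k, ∑ l, Real.exp (-Λ) * (m k * m l * Real.exp (-DD lam Badᶜ (e k) (e l))) :=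
        sum_le_sum fun k _ => sum_le_sum fun l _ => hterm k l
    _ = _ := by
        refine sum_congr rfl fun k _ => ?_
        rw [mul_sum]

end Pool.Agent.H506R3.Mag
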