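import Pool.Agent.H506R3.Mag.Cut

set_option autoImplicit false
set_option linter.unusedSectionVars false

namespace Pool.Agent.H506R3.Mag

open MeasureTheory Finset
open scoped RealInnerProductSpace NNReal ENNReal

variable {V : Type*} [NormedAddCommGroup V] [InnerProductSpace ℝ V] [FiniteDimensional ℝ V]
  [MeasurableSpace V] [BorelSpace V]
variable {ι : Type*} [Fintype ι] [DecidableEq ι] {κ : Type*} [Fintype κ] [DecidableEq κ]

open Classical in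
/-- the cut of the points `z i` by the hyperplane `⟪·, ω.1⟫ = ω.2` -/
noncomputable def cutset (z : ι → V) (ω : V × ℝ) : Finset ι :=
  univ.filter fun i => ω.2 < ⟪z i, ω.1⟫

lemma mem_cutset (z : ι → V) (ω : V × ℝ) (i : ι) : i ∈ cutset z ω ↔ ω.2 < ⟪z i, ω.1⟫ := by
  simp [cutset]

lemma halfspace_meas (x : V) : MeasurableSet {ω : V × ℝ | ω.2 < ⟪x, ω.1⟫} :=
  measurableSet_lt (by fun_prop) (by fun_prop)

lemma cutset_meas (z : ι → V) (S : Finset ι) : MeasurableSet {ω : V × ℝ | cutset z ω = S} := by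
  have h1 : {ω : V × ℝ | cutset z ω = S} =
      ⋂ i, (if i ∈ S then {ω : V × ℝ | ω.2 < ⟪z i, ω.1⟫} else {ω : V × ℝ | ω.2 < ⟪z i, ω.1⟫}ᶜ) := by
    ext ω
    simp only [Set.mem_setOf_eq, Set.mem_iInter]
    constructor
    · intro h i
      have := mem_cutset z ω i
      rw [h] at this
      split_ifs with hi
      · exact this.1 hi
      · exact fun h2 => hi (this.2 h2)
    · intro h
      ext i
      have h2 := h i
      rw [mem_cutset]
      split_ifs at h2 with hi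
      · exact ⟨fun _ => hi, fun _ => h2⟩
      · exact ⟨fun h3 => absurd h3 h2, fun h3 => absurd h3 hi⟩
  rw [h1]
  refine MeasurableSet.iInter fun i => ?_
  split_ifs
  · exact halfspace_meas _
  · exact (halfspace_meas _).compl

variable (Q : Measure V) [IsFiniteMeasure Q]

/-- cut weights -/
noncomputable def lamR (z : ι → V) (S : Finset ι) : ℝ :=
  (Q.prod (volume : Measure ℝ)).real {ω : V × ℝ | cutset z ω = S}

lemma sep_measure (hR : Integrable (fun ξ : V => ‖ξ‖) Q) (x y : V) :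
    (Q.prod (volume : Measure ℝ)) {ω : V × ℝ | ¬ (ω.2 < ⟪x, ω.1⟫ ↔ ω.2 < ⟪y, ω.1⟫)} =
      ENNReal.ofReal (∫ ξ, |⟪x - y, ξ⟫| ∂Q) := by
  have hm : MeasurableSet {ω : V × ℝ | ¬ (ω.2 < ⟪x, ω.1⟫ ↔ ω.2 < ⟪y, ω.1⟫)} := by
    have h1 := halfspace_meas x
    have h2 := halfspace_meas y
    have h3 : {ω : V × ℝ | ¬ (ω.2 < ⟪x, ω.1⟫ ↔ ω.2 < ⟪y, ω.1⟫)} =
        ({ω : V × ℝ | ω.2 < ⟪x, ω.1⟫} ∩ {ω : V × ℝ | ω.2 < ⟪y, ω.1⟫}ᶜ) ∪
        ({ω : V × ℝ | ω.2 < ⟪x, ω.1⟫}ᶜ ∩ {ω : V × ℝ | ω.2 < ⟪y, ω.1⟫}) := by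
      ext ω
      simp only [Set.mem_setOf_eq, Set.mem_union, Set.mem_inter_iff, Set.mem_compl_iff]
      tauto
    rw [h3]
    exact (h1.inter h2.compl).union (h1.compl.inter h2)
  rw [Measure.prod_apply hm]
  have h1 : ∀ ξ : V, (volume : Measure ℝ) (Prod.mk ξ ⁻¹'
      {ω : V × ℝ | ¬ (ω.2 < ⟪x, ω.1⟫ ↔ ω.2 < ⟪y, ω.1⟫)}) = ENNReal.ofReal |⟪x - y, ξ⟫| := by
    intro ξ
    have h2 : (Prod.mk ξ ⁻¹' {ω : V × ℝ | ¬ (ω.2 < ⟪x, ω.1⟫ ↔ ω.2 < ⟪y, ω.1⟫)}) =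
        Set.Ico (min ⟪x, ξ⟫ ⟪y, ξ⟫) (max ⟪x, ξ⟫ ⟪y, ξ⟫) := by
      ext u
      simp only [Set.mem_preimage, Set.mem_setOf_eq, Set.mem_Ico, min_le_iff, lt_max_iff]
      constructor
      · intro h
        by_cases h3 : u < ⟪x, ξ⟫
        · have h4 : ¬ u < ⟪y, ξ⟫ := fun h5 => h ⟨fun _ => h5, fun _ => h3⟩
          exact ⟨Or.inr (not_lt.1 h4), Or.inl h3⟩
        · have h4 : u < ⟪y, ξ⟫ := by
            by_contra h5
            exact h ⟨fun h6 => absurd h6 h3, fun h6 => absurd h6 h5⟩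
          exact ⟨Or.inl (not_lt.1 h3), Or.inr h4⟩
      · rintro ⟨h3, h4⟩ h5
        rcases h3 with h3 | h3 <;> rcases h4 with h4 | h4
        · exact absurd h4 (not_lt.2 h3)
        · exact absurd (h5.2 h4) (not_lt.2 h3)
        · exact absurd (h5.1 h4) (not_lt.2 h3)
        · exact absurd h4 (not_lt.2 h3)
    rw [h2, Real.volume_Ico, max_sub_min_eq_abs, inner_sub_left, abs_sub_comm]
  simp_rw [h1]
  rw [ofReal_integral_eq_lintegral_ofReal ?_ (Filter.Eventually.of_forall fun ξ => abs_nonneg _)]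
  refine (hR.const_mul ‖x - y‖).mono' (by fun_prop : Continuous _).aestronglyMeasurable
    (Filter.Eventually.of_forall fun ξ => ?_)
  rw [Real.norm_eq_abs, abs_abs]
  exact abs_real_inner_le_norm _ _

lemma ball_measure (hR : Integrable (fun ξ : V => ‖ξ‖) Q) (x : V) {r : ℝ} (hr : 0 ≤ r) :
    (Q.prod (volume : Measure ℝ)) {ω : V × ℝ | |⟪x, ω.1⟫ - ω.2| ≤ r * ‖ω.1‖} =
      ENNReal.ofReal (2 * r * ∫ ξ, ‖ξ‖ ∂Q) := by
  have hm : MeasurableSet {ω : V × ℝ | |⟪x, ω.1⟫ - ω.2| ≤ r * ‖ω.1‖} :=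
    measurableSet_le (by fun_prop) (by fun_prop)
  rw [Measure.prod_apply hm]
  have h1 : ∀ ξ : V, (volume : Measure ℝ) (Prod.mk ξ ⁻¹'
      {ω : V × ℝ | |⟪x, ω.1⟫ - ω.2| ≤ r * ‖ω.1‖}) = ENNReal.ofReal (2 * r * ‖ξ‖) := by
    intro ξ
    have h2 : (Prod.mk ξ ⁻¹' {ω : V × ℝ | |⟪x, ω.1⟫ - ω.2| ≤ r * ‖ω.1‖}) =
        Set.Icc (⟪x, ξ⟫ - r * ‖ξ‖) (⟪x, ξ⟫ + r * ‖ξ‖) := by
      ext u
      simp only [Set.mem_preimage, Set.mem_setOf_eq, Set.mem_Icc, abs_le]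
      constructor
      · rintro ⟨h3, h4⟩; constructor <;> linarith
      · rintro ⟨h3, h4⟩; constructor <;> linarith
    rw [h2, Real.volume_Icc]
    congr 1
    ring
  simp_rw [h1]
  rw [← ofReal_integral_eq_lintegral_ofReal (hR.const_mul _)
    (Filter.Eventually.of_forall fun ξ => by positivity), integral_const_mul]

lemma DD_eq (hR : Integrable (fun ξ : V => ‖ξ‖) Q) (z : ι → V) (i j : ι) :
    DD (lamR Q z) univ i j = ∫ ξ, |⟪z i - z j, ξ⟫| ∂Q := by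
  have h0 : 0 ≤ ∫ ξ, |⟪z i - z j, ξ⟫| ∂Q := integral_nonneg fun _ => abs_nonneg _
  have h1 := sep_measure Q hR (z i) (z j)
  classical
  let T : Finset (Finset ι) := univ.filter fun S => ¬ (i ∈ S ↔ j ∈ S)
  have h2 : {ω : V × ℝ | ¬ (ω.2 < ⟪z i, ω.1⟫ ↔ ω.2 < ⟪z j, ω.1⟫)} =
      ⋃ S ∈ T, {ω : V × ℝ | cutset z ω = S} := by
    ext ω
    simp only [Set.mem_setOf_eq, Set.mem_iUnion, exists_prop, T, mem_filter, mem_univ, true_and]
    constructor
    · intro h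
      refine ⟨cutset z ω, ?_, rfl⟩
      rwa [mem_cutset, mem_cutset]
    · rintro ⟨S, hS, rfl⟩
      rwa [mem_cutset, mem_cutset] at hS
  have h3 : DD (lamR Q z) univ i j = ∑ S ∈ T, lamR Q z S := by
    unfold DD
    rw [Finset.sum_filter]
    refine Finset.sum_congr rfl fun S _ => ?_
    unfold sep
    by_cases h : (i ∈ S ↔ j ∈ S) <;> simp [h]
  rw [h3]
  have h4 : (Q.prod (volume : Measure ℝ)).real (⋃ S ∈ T, {ω : V × ℝ | cutset z ω = S}) =
      ∑ S ∈ T, lamR Q z S := by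
    refine measureReal_biUnion_finset ?_ (fun S _ => cutset_meas z S) ?_
    · intro S _ S' _ hne
      rw [Function.onFun, Set.disjoint_left]
      intro ω h5 h6
      exact hne (h5.symm.trans h6)
    · intro S hS
      refine ne_top_of_le_ne_top (b := (Q.prod (volume : Measure ℝ))
        {ω : V × ℝ | ¬ (ω.2 < ⟪z i, ω.1⟫ ↔ ω.2 < ⟪z j, ω.1⟫)}) ?_ (measure_mono ?_)
      · rw [h1]; exact ENNReal.ofReal_ne_top
      · rw [h2]
        exact Set.subset_biUnion_of_mem (u := fun S => {ω : V × ℝ | cutset z ω = S}) hS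
  rw [← h4, ← h2, measureReal_def, h1, ENNReal.toReal_ofReal h0]

/-- The block inequality for the metric `∫ |⟪x - y, ξ⟫| dR(ξ)`. -/
theorem block_int (hR : Integrable (fun ξ : V => ‖ξ‖) Q) (z : ι → V) (x : κ → V) (b : ι → κ)
    (e : κ → ι) (hbe : ∀ k, b (e k) = k) (hze : ∀ k, z (e k) = x k) {r : ℝ} (hr : 0 ≤ r)
    (hbr : ∀ i, ‖z i - x (b i)‖ ≤ r) (w : ι → ℝ) :
    (∑ k, ∑ l, (∑ i with b i = k, w i) * (∑ i with b i = l, w i) *
      Real.exp (-∫ ξ, |⟪x k - x l, ξ⟫| ∂Q)) -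
      (2 * r * (Fintype.card κ) * ∫ ξ, ‖ξ‖ ∂Q) * (∑ k, |∑ i with b i = k, w i|) ^ 2 ≤
      ∑ i, ∑ j, w i * w j * Real.exp (-∫ ξ, |⟪z i - z j, ξ⟫| ∂Q) := by
  classical
  let Bad : Finset (Finset ι) := univ.filter fun S => ∃ i j, b i = b j ∧ i ∈ S ∧ j ∉ S
  have hgood : ∀ S, S ∉ Bad → ∀ i j, b i = b j → (i ∈ S ↔ j ∈ S) := by
    intro S hS i j hij
    simp only [Bad, mem_filter, mem_univ, true_and, not_exists, not_and, not_not] at hS
    exact ⟨fun h => hS i j hij h, fun h => hS j i hij.symm h⟩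
  have h1 := block_cut (lamR Q z) (fun S => measureReal_nonneg) b e hbe Bad hgood w
  have h2 : QQ (lamR Q z) univ w = ∑ i, ∑ j, w i * w j * Real.exp (-∫ ξ, |⟪z i - z j, ξ⟫| ∂Q) := by
    unfold QQ
    refine Finset.sum_congr rfl fun i _ => Finset.sum_congr rfl fun j _ => ?_
    rw [DD_eq Q hR]
  rw [h2] at h1
  refine le_trans ?_ h1
  have h3 : ∀ k l, DD (lamR Q z) univ (e k) (e l) = ∫ ξ, |⟪x k - x l, ξ⟫| ∂Q := by
    intro k l
    rw [DD_eq Q hR, hze, hze]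
  simp_rw [h3]
  refine sub_le_sub_left ?_ _
  refine mul_le_mul_of_nonneg_right ?_ (sq_nonneg _)
  -- the bound on the bad cuts
  have hsub : (⋃ S ∈ Bad, {ω : V × ℝ | cutset z ω = S}) ⊆
      ⋃ k : κ, {ω : V × ℝ | |⟪x k, ω.1⟫ - ω.2| ≤ r * ‖ω.1‖} := by
    intro ω hω
    simp only [Set.mem_iUnion, exists_prop, Set.mem_setOf_eq] at hω
    obtain ⟨S, hS, rfl⟩ := hω
    simp only [Bad, mem_filter, mem_univ, true_and] at hS
    obtain ⟨i, j, hij, hi, hj⟩ := hS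
    rw [mem_cutset] at hi hj
    refine Set.mem_iUnion.2 ⟨b i, ?_⟩
    simp only [Set.mem_setOf_eq, abs_le]
    have e1 : |⟪z i - x (b i), ω.1⟫| ≤ r * ‖ω.1‖ :=
      (abs_real_inner_le_norm _ _).trans (mul_le_mul_of_nonneg_right (hbr i) (norm_nonneg _))
    have e2 : |⟪z j - x (b j), ω.1⟫| ≤ r * ‖ω.1‖ :=
      (abs_real_inner_le_norm _ _).trans (mul_le_mul_of_nonneg_right (hbr j) (norm_nonneg _))
    rw [inner_sub_left, abs_le] at e1 e2
    rw [← hij] at e2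
    push Not at hj
    constructor <;> linarith [e1.1, e1.2, e2.1, e2.2]
  have hfin : ∀ k : κ, (Q.prod (volume : Measure ℝ))
      {ω : V × ℝ | |⟪x k, ω.1⟫ - ω.2| ≤ r * ‖ω.1‖} ≠ ⊤ := by
    intro k
    rw [ball_measure Q hR _ hr]; exact ENNReal.ofReal_ne_top
  have hfin2 : (Q.prod (volume : Measure ℝ))
      (⋃ k : κ, {ω : V × ℝ | |⟪x k, ω.1⟫ - ω.2| ≤ r * ‖ω.1‖}) ≠ ⊤ := by
    refine ne_top_of_le_ne_top ?_ (measure_iUnion_fintype_le _ _)
    exact ENNReal.sum_ne_top.2 fun k _ => hfin k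
  have h4 : (Q.prod (volume : Measure ℝ)).real (⋃ S ∈ Bad, {ω : V × ℝ | cutset z ω = S}) =
      ∑ S ∈ Bad, lamR Q z S := by
    refine measureReal_biUnion_finset ?_ (fun S _ => cutset_meas z S) ?_
    · intro S _ S' _ hne
      rw [Function.onFun, Set.disjoint_left]
      intro ω h5 h6
      exact hne (h5.symm.trans h6)
    · intro S hS
      refine ne_top_of_le_ne_top hfin2 (measure_mono (subset_trans ?_ hsub))
      exact Set.subset_biUnion_of_mem (u := fun S => {ω : V × ℝ | cutset z ω = S}) hS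
  rw [← h4]
  calc (Q.prod (volume : Measure ℝ)).real (⋃ S ∈ Bad, {ω : V × ℝ | cutset z ω = S})
      ≤ (Q.prod (volume : Measure ℝ)).real
        (⋃ k : κ, {ω : V × ℝ | |⟪x k, ω.1⟫ - ω.2| ≤ r * ‖ω.1‖}) := measureReal_mono hsub hfin2
    _ ≤ ∑ k : κ, (Q.prod (volume : Measure ℝ)).real
        {ω : V × ℝ | |⟪x k, ω.1⟫ - ω.2| ≤ r * ‖ω.1‖} := measureReal_iUnion_fintype_le _
    _ = 2 * r * (Fintype.card κ) * ∫ ξ, ‖ξ‖ ∂Q := by
        have h5 : ∀ k : κ, (Q.prod (volume : Measure ℝ)).real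
            {ω : V × ℝ | |⟪x k, ω.1⟫ - ω.2| ≤ r * ‖ω.1‖} = 2 * r * ∫ ξ, ‖ξ‖ ∂Q := by
          intro k
          rw [measureReal_def, ball_measure Q hR _ hr, ENNReal.toReal_ofReal]
          have : 0 ≤ ∫ ξ, ‖ξ‖ ∂Q := integral_nonneg fun _ => norm_nonneg _
          positivity
        simp_rw [h5]
        rw [Finset.sum_const, Finset.card_univ, nsmul_eq_mul]
        ring

end Pool.Agent.H506R3.Mag
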