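import Pool.Agent.H506R3.Mag.Main

set_option autoImplicit false
set_option linter.unusedSectionVars false

namespace Pool.Agent.H506R3.Mag

open Matrix Finset

section LA
variable {n : Type*} [Fintype n] [DecidableEq n]

lemma posdef_cs {A : Matrix n n ℝ} (hA : A.PosDef) (u v : n → ℝ) :
    (u ⬝ᵥ v) ^ 2 ≤ (u ⬝ᵥ (A⁻¹ *ᵥ u)) * (v ⬝ᵥ (A *ᵥ v)) := by
  set q := A⁻¹ *ᵥ u with hq
  have hAq : A *ᵥ q = u := by
    rw [hq, mulVec_mulVec, mul_nonsing_inv _ ((Matrix.isUnit_iff_isUnit_det _).1 hA.isUnit), one_mulVec]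
  have hsymm : ∀ a b : n → ℝ, a ⬝ᵥ (A *ᵥ b) = b ⬝ᵥ (A *ᵥ a) := by
    intro a b
    have h1 : Aᵀ = A := by
      have := hA.isHermitian
      rwa [IsHermitian, conjTranspose_eq_transpose_of_trivial] at this
    rw [dotProduct_mulVec, ← mulVec_transpose, h1, dotProduct_comm]
  have hpos : ∀ a : n → ℝ, 0 ≤ a ⬝ᵥ (A *ᵥ a) := by
    intro a
    have := hA.posSemidef.dotProduct_mulVec_nonneg a
    simpa using this
  have hquad : ∀ t : ℝ, 0 ≤ (u ⬝ᵥ q) * (t * t) + (-(2 * (u ⬝ᵥ v))) * t + v ⬝ᵥ (A *ᵥ v) := by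
    intro t
    have h1 := hpos (v - t • q)
    rw [mulVec_sub, mulVec_smul, hAq, sub_dotProduct, dotProduct_sub, dotProduct_sub,
      dotProduct_smul, smul_dotProduct, smul_dotProduct, dotProduct_smul, hsymm q v, hAq] at h1
    simp only [smul_eq_mul] at h1
    rw [dotProduct_comm v u, dotProduct_comm q u] at h1
    linarith
  have h2 := discrim_le_zero hquad
  rw [discrim] at h2
  nlinarith

lemma sum_inv_eq (A : Matrix n n ℝ) : ∑ i, ∑ j, A i j = 1 ⬝ᵥ (A *ᵥ 1) := by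
  simp [dotProduct, mulVec]

lemma quad_eq (A : Matrix n n ℝ) (v : n → ℝ) : v ⬝ᵥ (A *ᵥ v) = ∑ i, ∑ j, v i * v j * A i j := by
  simp only [dotProduct, mulVec, Finset.mul_sum]
  refine Finset.sum_congr rfl fun i _ => Finset.sum_congr rfl fun j _ => ?_
  ring

lemma weighting (A : Matrix n n ℝ) (hA : A.PosDef) :
    (A⁻¹ *ᵥ 1) ⬝ᵥ (A *ᵥ (A⁻¹ *ᵥ 1)) = 1 ⬝ᵥ (A⁻¹ *ᵥ 1) := by
  rw [mulVec_mulVec, mul_nonsing_inv _ ((Matrix.isUnit_iff_isUnit_det _).1 hA.isUnit), one_mulVec,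
    dotProduct_comm]

end LA

/-- The purely numerical comparison of magnitudes. `MX`, `MY` are the magnitudes, `QY` the energy
of the pushed weighting. -/
lemma upper_num {MX MY q s Λ L : ℝ} (hMY : 0 < MY) (h1 : q - Λ * s ≤ MY)
    (h2 : s ≤ L * q) (h3 : MY ^ 2 ≤ MX * q) (hΛ : 0 ≤ Λ) (hL : 0 ≤ L) (hΛL : Λ * L ≤ 1 / 2) (hMX : 0 < MX) :
    MY ≤ MX + 2 * (Λ * L) * MX := by
  have hq : 0 < q := by
    by_contra hq
    push Not at hq
    have : MX * q ≤ 0 := mul_nonpos_of_nonneg_of_nonpos hMX.le hq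
    nlinarith
  have h4 : (1 - Λ * L) * q ≤ MY := by
    have := mul_le_mul_of_nonneg_left h2 hΛ
    nlinarith
  have h5 : (1 - Λ * L) * MY ^ 2 ≤ MX * MY := by
    calc (1 - Λ * L) * MY ^ 2 ≤ (1 - Λ * L) * (MX * q) := by
          apply mul_le_mul_of_nonneg_left h3; linarith
      _ = MX * ((1 - Λ * L) * q) := by ring
      _ ≤ MX * MY := by gcongr
  have h6 : (1 - Λ * L) * MY ≤ MX := by
    have : ((1 - Λ * L) * MY) * MY ≤ MX * MY := by nlinarith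
    exact le_of_mul_le_mul_right this hMY
  have h0 : 0 ≤ Λ * L := mul_nonneg hΛ hL
  have h7 : MY ≤ 2 * MX := by nlinarith
  nlinarith

end Pool.Agent.H506R3.Mag
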