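import Pool.Agent.H506R3.Mag.Boch2

set_option autoImplicit false
set_option linter.unusedSectionVars false

namespace Pool.Agent.H506R3.Mag

open MeasureTheory Filter Topology
open scoped RealInnerProductSpace NNReal

/-! ### The one dimensional kernel -/

noncomputable def gg (u : ℝ) : ℝ := (1 - Real.cos u) / u ^ 2

lemma gg_nonneg (u : ℝ) : 0 ≤ gg u := by
  unfold gg
  have := Real.cos_le_one u
  exact div_nonneg (by linarith) (sq_nonneg u)

lemma gg_le_half (u : ℝ) : gg u ≤ 1 / 2 := by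
  unfold gg
  by_cases hu : u = 0
  · simp [hu]
  · rw [div_le_iff₀ (by positivity)]
    have := Real.one_sub_sq_div_two_le_cos (x := u)
    linarith

lemma gg_le_inv (u : ℝ) : gg u ≤ 2 * u ^ (-2 : ℝ) := by
  unfold gg
  by_cases hu : u = 0
  · simp [hu]
  · have h1 : u ^ (-2 : ℝ) = (u ^ 2)⁻¹ := by
      rw [show (-2 : ℝ) = ((-2 : ℤ) : ℝ) by norm_num, Real.rpow_intCast]
      rfl
    rw [h1, div_eq_mul_inv]
    have h2 : 0 ≤ (u ^ 2)⁻¹ := by positivity
    have := Real.neg_one_le_cos u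
    exact mul_le_mul_of_nonneg_right (by linarith) h2

lemma gg_meas : Measurable gg := by
  unfold gg; fun_prop

lemma gg_intOn_Ioc (a b : ℝ) : IntegrableOn gg (Set.Ioc a b) := by
  refine Integrable.mono' (g := fun _ => (1 / 2 : ℝ)) ?_ gg_meas.aestronglyMeasurable
    (Filter.Eventually.of_forall fun u => ?_)
  · exact integrableOn_const (by simp)
  · rw [Real.norm_eq_abs, abs_of_nonneg (gg_nonneg u)]
    exact gg_le_half u

lemma gg_intervalIntegrable (a b : ℝ) : IntervalIntegrable gg volume a b :=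
  ⟨gg_intOn_Ioc a b, gg_intOn_Ioc b a⟩

lemma gg_intOn_Ioi {c : ℝ} (hc : 0 < c) : IntegrableOn gg (Set.Ioi c) := by
  refine Integrable.mono' (g := fun u : ℝ => 2 * u ^ (-2 : ℝ)) ?_ gg_meas.aestronglyMeasurable
    (Filter.Eventually.of_forall fun u => ?_)
  · exact (integrableOn_Ioi_rpow_of_lt (by norm_num) hc).const_mul 2
  · rw [Real.norm_eq_abs, abs_of_nonneg (gg_nonneg u)]
    exact gg_le_inv u

lemma gg_tail {c : ℝ} (hc : 0 < c) : ∫ u in Set.Ioi c, gg u ≤ 2 / c := by
  have h1 : ∫ u in Set.Ioi c, gg u ≤ ∫ u in Set.Ioi c, 2 * u ^ (-2 : ℝ) :=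
    integral_mono (gg_intOn_Ioi hc)
      ((integrableOn_Ioi_rpow_of_lt (by norm_num) hc).const_mul 2) gg_le_inv
  rw [integral_const_mul, integral_Ioi_rpow_of_lt (by norm_num) hc] at h1
  refine h1.trans_eq ?_
  rw [show (-2 : ℝ) + 1 = -1 by norm_num, Real.rpow_neg_one]
  field_simp

lemma gg_intOn_Ioi0 : IntegrableOn gg (Set.Ioi 0) := by
  rw [← Set.Ioc_union_Ioi_eq_Ioi zero_le_one]
  exact (gg_intOn_Ioc 0 1).union (gg_intOn_Ioi one_pos)

noncomputable def kap : ℝ := ∫ u in Set.Ioi (0 : ℝ), gg u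

lemma kap_nonneg : 0 ≤ kap := integral_nonneg gg_nonneg

/-- truncated kernel -/
noncomputable def HH (δ w : ℝ) : ℝ := ∫ t in δ..1, (1 - Real.cos (t * w)) / t ^ 2

lemma HH_eq (δ : ℝ) {w : ℝ} (hw : 0 < w) : HH δ w = w * ∫ u in (δ * w)..w, gg u := by
  unfold HH
  have h1 : ∀ t : ℝ, (1 - Real.cos (t * w)) / t ^ 2 = w ^ 2 * gg (t * w) := by
    intro t
    unfold gg
    by_cases ht : t = 0
    · simp [ht]
    · field_simp
  simp_rw [h1]
  rw [intervalIntegral.integral_const_mul, intervalIntegral.integral_comp_mul_right _ hw.ne',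
    one_mul, smul_eq_mul]
  field_simp

lemma HH_abs (δ w : ℝ) : HH δ w = HH δ |w| := by
  unfold HH
  congr 1
  funext t
  rcases abs_cases w with h | h
  · rw [h.1]
  · rw [h.1, mul_neg, Real.cos_neg]

lemma HH_approx {δ : ℝ} (hδ : 0 < δ) (hδ1 : δ ≤ 1) (w : ℝ) :
    |HH δ w - kap * (|w|)| ≤ δ * w ^ 2 / 2 + 2 := by
  by_cases hw : w = 0
  · subst hw
    simp [HH]
  · rw [HH_abs]
    have hw' : 0 < |w| := abs_pos.2 hw
    rw [← sq_abs w]
    set v := |w| with hv
    rw [HH_eq δ hw']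
    have hδv : 0 < δ * v := by positivity
    have hδv1 : δ * v ≤ v := by nlinarith
    have h1 : kap = (∫ u in (0 : ℝ)..(δ * v), gg u) + (∫ u in (δ * v)..v, gg u) +
        ∫ u in Set.Ioi v, gg u := by
      rw [intervalIntegral.integral_add_adjacent_intervals (gg_intervalIntegrable _ _)
        (gg_intervalIntegrable _ _)]
      rw [intervalIntegral.integral_of_le hw'.le]
      unfold kap
      rw [← setIntegral_union (Set.Ioc_disjoint_Ioi le_rfl) measurableSet_Ioi
        (gg_intOn_Ioc _ _) (gg_intOn_Ioi hw'), Set.Ioc_union_Ioi_eq_Ioi hw'.le]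
    have h2 : 0 ≤ ∫ u in (0 : ℝ)..(δ * v), gg u :=
      intervalIntegral.integral_nonneg hδv.le fun u _ => gg_nonneg u
    have h3 : ∫ u in (0 : ℝ)..(δ * v), gg u ≤ δ * v / 2 := by
      have := intervalIntegral.integral_mono (μ := volume) hδv.le (gg_intervalIntegrable 0 (δ * v))
        (intervalIntegrable_const (c := (1 / 2 : ℝ))) gg_le_half
      refine this.trans_eq ?_
      rw [intervalIntegral.integral_const]
      simp only [smul_eq_mul]
      ring
    have h4 : 0 ≤ ∫ u in Set.Ioi v, gg u := integral_nonneg gg_nonneg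
    have h5 := gg_tail hw'
    rw [h1]
    have h6 : v * (∫ u in (δ * v)..v, gg u) - ((∫ u in (0 : ℝ)..(δ * v), gg u) +
        (∫ u in (δ * v)..v, gg u) + ∫ u in Set.Ioi v, gg u) * v =
        -(v * ((∫ u in (0 : ℝ)..(δ * v), gg u) + ∫ u in Set.Ioi v, gg u)) := by ring
    rw [h6, abs_neg, abs_of_nonneg (by positivity)]
    calc v * ((∫ u in (0 : ℝ)..(δ * v), gg u) + ∫ u in Set.Ioi v, gg u)
        ≤ v * (δ * v / 2 + 2 / v) := by gcongr
      _ = δ * v ^ 2 / 2 + 2 := by field_simp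

lemma HH_nonneg {δ : ℝ} (hδ1 : δ ≤ 1) (w : ℝ) : 0 ≤ HH δ w := by
  unfold HH
  refine intervalIntegral.integral_nonneg hδ1 fun t _ => ?_
  have := Real.cos_le_one (t * w)
  exact div_nonneg (by linarith) (sq_nonneg t)

lemma HH_le {δ : ℝ} (hδ : 0 < δ) (hδ1 : δ ≤ 1) (w : ℝ) : HH δ w ≤ 2 / δ := by
  unfold HH
  have hcont : ContinuousOn (fun t : ℝ => (1 - Real.cos (t * w)) / t ^ 2) (Set.uIcc δ 1) := by
    refine ContinuousOn.div (by fun_prop) (by fun_prop) fun t ht => ?_
    rw [Set.uIcc_of_le hδ1] at ht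
    have : 0 < t := lt_of_lt_of_le hδ ht.1
    positivity
  have hcont2 : ContinuousOn (fun t : ℝ => 2 * (1 / t ^ 2)) (Set.uIcc δ 1) := by
    refine ContinuousOn.mul continuousOn_const (ContinuousOn.div (by fun_prop) (by fun_prop)
      fun t ht => ?_)
    rw [Set.uIcc_of_le hδ1] at ht
    have : 0 < t := lt_of_lt_of_le hδ ht.1
    positivity
  have h1 := intervalIntegral.integral_mono_on (μ := volume) hδ1 hcont.intervalIntegrable
    hcont2.intervalIntegrable (by
      intro t ht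
      have ht0 : 0 < t := lt_of_lt_of_le hδ ht.1
      have := Real.neg_one_le_cos (t * w)
      rw [mul_one_div]
      gcongr
      linarith)
  refine h1.trans ?_
  have h2 : ∫ t in δ..1, 2 * (1 / t ^ 2) = 2 / δ - 2 := by
    have h3 : ∀ t ∈ Set.uIcc δ 1, HasDerivAt (fun t : ℝ => -(2 / t)) (2 * (1 / t ^ 2)) t := by
      intro t ht
      rw [Set.uIcc_of_le hδ1] at ht
      have ht0 : t ≠ 0 := (lt_of_lt_of_le hδ ht.1).ne'
      have h4 := ((hasDerivAt_inv ht0).const_mul 2).neg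
      have h5 : HasDerivAt (fun t : ℝ => -(2 * t⁻¹)) (-(2 * -(t ^ 2)⁻¹)) t := h4
      have h6 : (-(2 * -(t ^ 2)⁻¹)) = 2 * (1 / t ^ 2) := by rw [one_div]; ring
      rw [h6] at h5
      simpa only [div_eq_mul_inv] using h5
    rw [intervalIntegral.integral_eq_sub_of_hasDerivAt h3 hcont2.intervalIntegrable]
    field_simp
    ring
  rw [h2]
  linarith

lemma exp_bd {s : ℝ} (hs : 0 ≤ s) : |1 - Real.exp (-s) - s| ≤ s ^ 2 := by
  have h1 := Real.add_one_le_exp (-s)
  have h2 : Real.exp (-s) ≤ 1 - s + s ^ 2 := by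
    rw [Real.exp_neg]
    have h3 : 1 + s ≤ Real.exp s := by linarith [Real.add_one_le_exp s]
    have h4 : (Real.exp s)⁻¹ ≤ (1 + s)⁻¹ := inv_anti₀ (by linarith) h3
    refine h4.trans ?_
    rw [inv_le_iff_one_le_mul₀ (by linarith)]
    nlinarith [pow_nonneg hs 3]
  rw [abs_le]
  constructor <;> nlinarith

lemma log_integral {δ a : ℝ} (hδ : 0 < δ) (hδ1 : δ ≤ 1) (ha : 0 ≤ a) :
    |(∫ t in δ..1, (1 - Real.exp (-(t * a))) / t ^ 2) - a * Real.log (1 / δ)| ≤ a ^ 2 := by
  have hc1 : ContinuousOn (fun t : ℝ => (1 - Real.exp (-(t * a))) / t ^ 2) (Set.uIcc δ 1) := by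
    refine ContinuousOn.div (by fun_prop) (by fun_prop) fun t ht => ?_
    rw [Set.uIcc_of_le hδ1] at ht
    have : 0 < t := lt_of_lt_of_le hδ ht.1
    positivity
  have hc2 : ContinuousOn (fun t : ℝ => a * (1 / t)) (Set.uIcc δ 1) := by
    refine ContinuousOn.mul continuousOn_const (ContinuousOn.div (by fun_prop) (by fun_prop)
      fun t ht => ?_)
    rw [Set.uIcc_of_le hδ1] at ht
    exact (lt_of_lt_of_le hδ ht.1).ne'
  have h1 : ∫ t in δ..1, a * (1 / t) = a * Real.log (1 / δ) := by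
    rw [intervalIntegral.integral_const_mul, integral_one_div_of_pos hδ one_pos]
  rw [← h1, ← intervalIntegral.integral_sub hc1.intervalIntegrable hc2.intervalIntegrable]
  have h2 := intervalIntegral.norm_integral_le_of_norm_le_const (a := δ) (b := 1) (C := a ^ 2)
    (f := fun t => (1 - Real.exp (-(t * a))) / t ^ 2 - a * (1 / t)) (by
      intro t ht
      rw [Set.uIoc_of_le hδ1] at ht
      have ht0 : 0 < t := lt_trans hδ ht.1
      have h3 : (1 - Real.exp (-(t * a))) / t ^ 2 - a * (1 / t) =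
          (1 - Real.exp (-(t * a)) - t * a) / t ^ 2 := by field_simp
      rw [h3, norm_div, Real.norm_eq_abs, Real.norm_eq_abs, abs_of_pos (by positivity : 0 < t ^ 2),
        div_le_iff₀ (by positivity)]
      refine (exp_bd (by positivity)).trans_eq ?_
      ring)
  rw [Real.norm_eq_abs] at h2
  refine h2.trans ?_
  rw [abs_of_nonneg (by linarith)]
  nlinarith [sq_nonneg a]

end Pool.Agent.H506R3.Mag
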