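import Pool.Agent.H506R3.Mag.Lim

set_option autoImplicit false
set_option linter.unusedSectionVars false

namespace Pool.Agent.H506R3.Mag

open MeasureTheory Filter Topology
open scoped RealInnerProductSpace NNReal

variable {V : Type*} [NormedAddCommGroup V] [InnerProductSpace ℝ V] [FiniteDimensional ℝ V]
  [MeasurableSpace V] [BorelSpace V]

lemma cos_int {P : Measure V} [IsProbabilityMeasure P] {N : V → ℝ}
    (hNs : ∀ (t : ℝ) x, N (t • x) = |t| * N x) (hP : ∀ x, charFun P x = ((Real.exp (-N x) : ℝ) : ℂ))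
    (t : ℝ) (x : V) : ∫ ξ, Real.cos (t * ⟪x, ξ⟫) ∂P = Real.exp (-(|t| * N x)) := by
  have h1 := congrArg Complex.re (hP (t • x))
  rw [Complex.ofReal_re, hNs, charFun_apply] at h1
  rw [← h1]
  have hint : Integrable (fun ξ : V => Complex.exp (((⟪ξ, t • x⟫ : ℝ) : ℂ) * Complex.I)) P := by
    refine Integrable.mono' (integrable_const (1 : ℝ)) ?_ (Filter.Eventually.of_forall fun ξ => ?_)
    · exact (by fun_prop : Continuous _).aestronglyMeasurable
    · rw [Complex.norm_exp_ofReal_mul_I]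
  have h2 := integral_re hint
  simp only [RCLike.re_to_complex] at h2
  rw [← h2]
  refine integral_congr_ae (Filter.Eventually.of_forall fun ξ => ?_)
  simp only [Complex.exp_ofReal_mul_I_re]
  rw [real_inner_smul_right, real_inner_comm]

lemma tail1 {P : Measure V} [IsProbabilityMeasure P] {N : V → ℝ} (hN0 : ∀ x, 0 ≤ N x)
    (hNs : ∀ (t : ℝ) x, N (t • x) = |t| * N x) (hP : ∀ x, charFun P x = ((Real.exp (-N x) : ℝ) : ℂ))
    (a : V) {r : ℝ} (hr : 0 < r) : P.real {x | r < |⟪a, x⟫|} ≤ 4 * N a / r := by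
  refine (measureReal_abs_inner_gt_le_integral_charFun hr).trans ?_
  have h1 := intervalIntegral.norm_integral_le_of_norm_le_const (a := -2 * r⁻¹) (b := 2 * r⁻¹)
    (C := 2 * r⁻¹ * N a) (f := fun t => 1 - charFun P (t • a)) (by
      intro t ht
      rw [Set.uIoc_of_le (by nlinarith [inv_pos.2 hr])] at ht
      rw [hP, hNs]
      have h2 : (1 : ℂ) - ((Real.exp (-(|t| * N a)) : ℝ) : ℂ) =
        ((1 - Real.exp (-(|t| * N a)) : ℝ) : ℂ) := by push_cast; ring
      rw [h2, Complex.norm_real, Real.norm_eq_abs]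
      have h3 : 0 ≤ |t| * N a := mul_nonneg (abs_nonneg _) (hN0 a)
      rw [abs_of_nonneg (by
        have := Real.exp_le_one_iff.2 (neg_nonpos.2 h3)
        linarith)]
      have h4 := Real.add_one_le_exp (-(|t| * N a))
      have h5 : |t| ≤ 2 * r⁻¹ := by
        rw [abs_le]
        constructor
        · linarith [ht.1]
        · exact ht.2
      have h6 : |t| * N a ≤ 2 * r⁻¹ * N a := mul_le_mul_of_nonneg_right h5 (hN0 a)
      linarith)
  calc 2⁻¹ * r * ‖∫ t in (-2 * r⁻¹)..(2 * r⁻¹), 1 - charFun P (t • a)‖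
      ≤ 2⁻¹ * r * (2 * r⁻¹ * N a * |2 * r⁻¹ - -2 * r⁻¹|) := by gcongr
    _ = 4 * N a / r := by
        rw [show 2 * r⁻¹ - -2 * r⁻¹ = 4 * r⁻¹ by ring, abs_of_pos (by positivity)]
        field_simp
        try norm_num

lemma tail {P : Measure V} [IsProbabilityMeasure P] {N : V → ℝ} (hN0 : ∀ x, 0 ≤ N x)
    (hNs : ∀ (t : ℝ) x, N (t • x) = |t| * N x) (hP : ∀ x, charFun P x = ((Real.exp (-N x) : ℝ) : ℂ)) :
    ∃ C : ℝ, 0 ≤ C ∧ ∀ r : ℝ, 0 < r → P.real {x | r < ‖x‖} ≤ C / r := by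
  let b := stdOrthonormalBasis ℝ V
  set d : ℕ := Module.finrank ℝ V with hd
  refine ⟨∑ i, 4 * N (b i) * ((d : ℝ) + 1), Finset.sum_nonneg fun i _ => ?_, fun r hr => ?_⟩
  · have := hN0 (b i); positivity
  have hd1 : (0 : ℝ) < (d : ℝ) + 1 := by positivity
  have hsub : {x : V | r < ‖x‖} ⊆ ⋃ i, {x | r / ((d : ℝ) + 1) < |⟪b i, x⟫|} := by
    intro x hx
    by_contra hcon
    simp only [Set.mem_iUnion, Set.mem_setOf_eq, not_exists, not_lt] at hcon
    have h1 : ‖x‖ ≤ ∑ i, |⟪b i, x⟫| := by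
      conv_lhs => rw [← b.sum_repr' x]
      refine (norm_sum_le _ _).trans (Finset.sum_le_sum fun i _ => ?_)
      rw [norm_smul, b.norm_eq_one, mul_one, Real.norm_eq_abs]
    have h2 : ∑ i, |⟪b i, x⟫| ≤ ∑ i : Fin d, r / ((d : ℝ) + 1) :=
      Finset.sum_le_sum fun i _ => hcon i
    rw [Finset.sum_const, Finset.card_univ, Fintype.card_fin, nsmul_eq_mul] at h2
    have h3 : (d : ℝ) * (r / ((d : ℝ) + 1)) < r := by
      rw [mul_div_assoc', div_lt_iff₀ hd1]
      nlinarith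
    exact absurd (lt_of_lt_of_le hx (h1.trans h2)) (not_lt.2 h3.le)
  calc P.real {x | r < ‖x‖} ≤ P.real (⋃ i, {x | r / ((d : ℝ) + 1) < |⟪b i, x⟫|}) :=
        measureReal_mono hsub
    _ ≤ ∑ i, P.real {x | r / ((d : ℝ) + 1) < |⟪b i, x⟫|} := measureReal_iUnion_fintype_le _
    _ ≤ ∑ i, 4 * N (b i) / (r / ((d : ℝ) + 1)) :=
        Finset.sum_le_sum fun i _ => tail1 hN0 hNs hP (b i) (by positivity)
    _ = (∑ i, 4 * N (b i) * ((d : ℝ) + 1)) / r := by
        rw [Finset.sum_div]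
        refine Finset.sum_congr rfl fun i _ => ?_
        field_simp

/-- the ball of radius `2^k` -/
noncomputable def BB (V : Type*) [NormedAddCommGroup V] (k : ℕ) : Set V :=
  {x | ‖x‖ ≤ (2 : ℝ) ^ k}

lemma BB_meas (k : ℕ) : MeasurableSet (BB V k) :=
  measurableSet_le (by fun_prop) (by fun_prop)

lemma second_moment {P : Measure V} [IsProbabilityMeasure P] {C : ℝ} (hC : 0 ≤ C)
    (ht : ∀ r : ℝ, 0 < r → P.real {x | r < ‖x‖} ≤ C / r) (k : ℕ) :
    ∫ ξ in BB V k, ‖ξ‖ ^ 2 ∂P ≤ (1 + 4 * C) * 2 ^ k := by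
  have hint : ∀ k : ℕ, IntegrableOn (fun ξ : V => ‖ξ‖ ^ 2) (BB V k) P := by
    intro k
    refine Integrable.mono' (g := fun _ => ((2 : ℝ) ^ k) ^ 2) (integrable_const _)
      (by fun_prop : Continuous _).aestronglyMeasurable ?_
    refine (ae_restrict_iff' (BB_meas k)).2 (Filter.Eventually.of_forall fun ξ hξ => ?_)
    rw [Real.norm_eq_abs, abs_of_nonneg (by positivity)]
    have : ‖ξ‖ ≤ 2 ^ k := hξ
    gcongr
  induction k with
  | zero =>
    have h1 : ∫ ξ in BB V 0, ‖ξ‖ ^ 2 ∂P ≤ ∫ ξ in BB V 0, (1 : ℝ) ∂P := by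
      refine setIntegral_mono_on (hint 0) (integrable_const _) (BB_meas 0) fun ξ hξ => ?_
      have : ‖ξ‖ ≤ 2 ^ 0 := hξ
      rw [pow_zero] at this
      nlinarith [norm_nonneg ξ]
    rw [setIntegral_const, smul_eq_mul, mul_one] at h1
    have h2 : P.real (BB V 0) ≤ 1 := measureReal_le_one
    simp only [pow_zero, mul_one]
    linarith
  | succ k ih =>
    have hsub : BB V (k + 1) = BB V k ∪ (BB V (k + 1) \ BB V k) := by
      rw [Set.union_diff_cancel]
      intro x hx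
      have h1 : ‖x‖ ≤ 2 ^ k := hx
      show ‖x‖ ≤ 2 ^ (k + 1)
      rw [pow_succ]
      have : (0 : ℝ) < 2 ^ k := by positivity
      linarith
    rw [hsub, setIntegral_union disjoint_sdiff_self_right ((BB_meas _).diff (BB_meas _)) (hint k)
      ((hint (k + 1)).mono_set Set.diff_subset)]
    have h1 : ∫ ξ in BB V (k + 1) \ BB V k, ‖ξ‖ ^ 2 ∂P ≤
        ∫ ξ in BB V (k + 1) \ BB V k, ((2 : ℝ) ^ (k + 1)) ^ 2 ∂P := by
      refine setIntegral_mono_on ((hint (k + 1)).mono_set Set.diff_subset) (integrable_const _)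
        ((BB_meas _).diff (BB_meas _)) fun ξ hξ => ?_
      have : ‖ξ‖ ≤ 2 ^ (k + 1) := hξ.1
      gcongr
    rw [setIntegral_const, smul_eq_mul] at h1
    have h2 : P.real (BB V (k + 1) \ BB V k) ≤ C / 2 ^ k := by
      refine (measureReal_mono ?_).trans (ht (2 ^ k) (by positivity))
      intro x hx
      have : ¬ ‖x‖ ≤ 2 ^ k := hx.2
      exact not_le.1 this
    have h3 : P.real (BB V (k + 1) \ BB V k) * ((2 : ℝ) ^ (k + 1)) ^ 2 ≤
        C / 2 ^ k * ((2 : ℝ) ^ (k + 1)) ^ 2 := by gcongr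
    have h4 : C / 2 ^ k * ((2 : ℝ) ^ (k + 1)) ^ 2 = 4 * C * 2 ^ k := by
      rw [pow_succ]
      field_simp
      ring
    calc _ ≤ (1 + 4 * C) * 2 ^ k + 4 * C * 2 ^ k := by linarith
      _ ≤ (1 + 4 * C) * 2 ^ (k + 1) := by
        rw [pow_succ]
        have : (0 : ℝ) < 2 ^ k := by positivity
        nlinarith

end Pool.Agent.H506R3.Mag
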