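import Pool.Agent.H506R3.Mag.Lim2

set_option autoImplicit false
set_option linter.unusedSectionVars false

namespace Pool.Agent.H506R3.Mag

open MeasureTheory Filter Topology
open scoped RealInnerProductSpace NNReal

variable {V : Type*} [NormedAddCommGroup V] [InnerProductSpace ℝ V] [FiniteDimensional ℝ V]
  [MeasurableSpace V] [BorelSpace V]

lemma HH_prod_int (P : Measure V) [IsProbabilityMeasure P] (x : V) {δ : ℝ} (hδ : 0 < δ) :
    Integrable (fun p : V × ℝ => (1 - Real.cos (p.2 * ⟪x, p.1⟫)) / p.2 ^ 2)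
      (P.prod (volume.restrict (Set.Ioc δ 1))) := by
  have h1 : IntegrableOn (fun t : ℝ => 2 * (1 / t ^ 2)) (Set.Ioc δ 1) := by
    have : ContinuousOn (fun t : ℝ => 2 * (1 / t ^ 2)) (Set.Icc δ 1) := by
      refine ContinuousOn.mul continuousOn_const (ContinuousOn.div (by fun_prop) (by fun_prop)
        fun t ht => ?_)
      have : 0 < t := lt_of_lt_of_le hδ ht.1
      positivity
    exact this.integrableOn_Icc.mono_set Set.Ioc_subset_Icc_self
  have h2 : Integrable (fun p : V × ℝ => (1 : ℝ) * (2 * (1 / p.2 ^ 2)))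
      (P.prod (volume.restrict (Set.Ioc δ 1))) := (integrable_const (1 : ℝ)).mul_prod h1
  refine h2.mono (by fun_prop : Measurable _).aestronglyMeasurable
    (Filter.Eventually.of_forall fun p => ?_)
  rw [one_mul, norm_div, mul_one_div, norm_div]
  refine div_le_div_of_nonneg_right ?_ (norm_nonneg _)
  rw [Real.norm_eq_abs, Real.norm_eq_abs, abs_of_nonneg (by linarith [Real.cos_le_one (p.2 * ⟪x, p.1⟫)]),
    abs_of_pos two_pos]
  linarith [Real.neg_one_le_cos (p.2 * ⟪x, p.1⟫)]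

lemma HH_int (P : Measure V) [IsProbabilityMeasure P] (x : V) {δ : ℝ} (hδ : 0 < δ) (hδ1 : δ ≤ 1) :
    Integrable (fun ξ : V => HH δ ⟪x, ξ⟫) P := by
  have h1 := (HH_prod_int P x hδ).integral_prod_left
  refine h1.congr (Filter.Eventually.of_forall fun ξ => ?_)
  simp only [HH]
  rw [intervalIntegral.integral_of_le hδ1]

lemma EHH {P : Measure V} [IsProbabilityMeasure P] {N : V → ℝ}
    (hNs : ∀ (t : ℝ) x, N (t • x) = |t| * N x) (hP : ∀ x, charFun P x = ((Real.exp (-N x) : ℝ) : ℂ))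
    (x : V) {δ : ℝ} (hδ : 0 < δ) (hδ1 : δ ≤ 1) :
    ∫ ξ, HH δ ⟪x, ξ⟫ ∂P = ∫ t in δ..1, (1 - Real.exp (-(t * N x))) / t ^ 2 := by
  simp only [HH]
  simp_rw [intervalIntegral.integral_of_le hδ1]
  rw [integral_integral_swap (HH_prod_int P x hδ)]
  refine setIntegral_congr_fun measurableSet_Ioc fun t ht => ?_
  have ht0 : 0 < t := lt_trans hδ ht.1
  rw [integral_div, integral_sub (integrable_const _), cos_int hNs hP, abs_of_pos ht0]
  · simp
  · refine Integrable.mono' (integrable_const (1 : ℝ))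
      (by fun_prop : Continuous _).aestronglyMeasurable (Filter.Eventually.of_forall fun ξ => ?_)
    rw [Real.norm_eq_abs]
    exact Real.abs_cos_le_one _

lemma key_bound {P : Measure V} [IsProbabilityMeasure P] {N : V → ℝ} (hN0 : ∀ x, 0 ≤ N x)
    (hNs : ∀ (t : ℝ) x, N (t • x) = |t| * N x) (hP : ∀ x, charFun P x = ((Real.exp (-N x) : ℝ) : ℂ))
    (x : V) :
    ∃ C : ℝ, ∀ k : ℕ, |kap * (∫ ξ in BB V k, |⟪x, ξ⟫| ∂P) - (k * Real.log 2) * N x| ≤ C := by
  obtain ⟨C, hC, ht⟩ := tail hN0 hNs hP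
  refine ⟨‖x‖ ^ 2 * (1 + 4 * C) + 2 + 2 * C + N x ^ 2, fun k => ?_⟩
  obtain ⟨δ, hδdef⟩ : ∃ δ : ℝ, δ = 1 / 2 ^ k := ⟨_, rfl⟩
  have h2k : (0 : ℝ) < 2 ^ k := by positivity
  have hδ : 0 < δ := by rw [hδdef]; positivity
  have hδ1 : δ ≤ 1 := by
    rw [hδdef, div_le_one h2k]
    exact one_le_pow₀ one_le_two
  have hδk : δ * 2 ^ k = 1 := by rw [hδdef]; field_simp
  have hI := HH_int P x hδ hδ1
  have hlog : Real.log (1 / δ) = k * Real.log 2 := by
    rw [hδdef, one_div_one_div, Real.log_pow]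
  have e1 := log_integral hδ hδ1 (hN0 x)
  rw [← EHH hNs hP x hδ hδ1, hlog, ← integral_add_compl (BB_meas (V := V) k) hI] at e1
  -- complement
  have e2 : 0 ≤ ∫ ξ in (BB V k)ᶜ, HH δ ⟪x, ξ⟫ ∂P := integral_nonneg fun ξ => HH_nonneg hδ1 _
  have e3 : ∫ ξ in (BB V k)ᶜ, HH δ ⟪x, ξ⟫ ∂P ≤ 2 * C := by
    have h1 : ∫ ξ in (BB V k)ᶜ, HH δ ⟪x, ξ⟫ ∂P ≤ ∫ ξ in (BB V k)ᶜ, (2 / δ) ∂P :=
      integral_mono hI.integrableOn (integrable_const _) fun ξ => HH_le hδ hδ1 _
    rw [setIntegral_const, smul_eq_mul] at h1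
    have h2 : P.real (BB V k)ᶜ ≤ C / 2 ^ k := by
      refine (measureReal_mono ?_).trans (ht (2 ^ k) h2k)
      intro y hy
      have : ¬ ‖y‖ ≤ 2 ^ k := hy
      exact not_le.1 this
    calc _ ≤ P.real (BB V k)ᶜ * (2 / δ) := h1
      _ ≤ C / 2 ^ k * (2 / δ) := by gcongr
      _ = 2 * C := by rw [hδdef]; field_simp
  -- main part
  have hint2 : IntegrableOn (fun ξ : V => ‖ξ‖ ^ 2) (BB V k) P := by
    refine Integrable.mono' (g := fun _ => ((2 : ℝ) ^ k) ^ 2) (integrable_const _)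
      (by fun_prop : Continuous _).aestronglyMeasurable ?_
    refine (ae_restrict_iff' (BB_meas k)).2 (Filter.Eventually.of_forall fun ξ hξ => ?_)
    rw [Real.norm_eq_abs, abs_of_nonneg (by positivity)]
    have : ‖ξ‖ ≤ 2 ^ k := hξ
    gcongr
  have hint1 : IntegrableOn (fun ξ : V => |⟪x, ξ⟫|) (BB V k) P := by
    refine Integrable.mono' (g := fun _ => ‖x‖ * (2 : ℝ) ^ k) (integrable_const _)
      (by fun_prop : Continuous _).aestronglyMeasurable ?_
    refine (ae_restrict_iff' (BB_meas k)).2 (Filter.Eventually.of_forall fun ξ hξ => ?_)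
    rw [Real.norm_eq_abs, abs_abs]
    have h1 : ‖ξ‖ ≤ 2 ^ k := hξ
    exact (abs_real_inner_le_norm _ _).trans (by gcongr)
  have e4 : |(∫ ξ in BB V k, HH δ ⟪x, ξ⟫ ∂P) - kap * ∫ ξ in BB V k, |⟪x, ξ⟫| ∂P| ≤
      ‖x‖ ^ 2 * (1 + 4 * C) + 2 := by
    rw [← integral_const_mul, ← integral_sub hI.integrableOn (hint1.const_mul kap)]
    have h1 : ‖∫ ξ in BB V k, (HH δ ⟪x, ξ⟫ - kap * |⟪x, ξ⟫|) ∂P‖ ≤
        ∫ ξ in BB V k, (δ * ‖x‖ ^ 2 * ‖ξ‖ ^ 2 + 2) ∂P := by
      refine norm_integral_le_of_norm_le ((hint2.const_mul _).add (integrable_const _))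
        (Filter.Eventually.of_forall fun ξ => ?_)
      rw [Real.norm_eq_abs]
      refine (HH_approx hδ hδ1 _).trans ?_
      have h2 : ⟪x, ξ⟫ ^ 2 ≤ ‖x‖ ^ 2 * ‖ξ‖ ^ 2 := by
        rw [← mul_pow, ← sq_abs ⟪x, ξ⟫]
        have := abs_real_inner_le_norm x ξ
        gcongr
      have h3 : 0 ≤ δ * (‖x‖ ^ 2 * ‖ξ‖ ^ 2) := by positivity
      nlinarith [mul_le_mul_of_nonneg_left h2 hδ.le]
    rw [Real.norm_eq_abs] at h1
    refine h1.trans ?_
    rw [integral_add (hint2.const_mul _) (integrable_const _), integral_const_mul,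
      setIntegral_const, smul_eq_mul]
    have h2 := second_moment hC ht k
    have h3 : P.real (BB V k) ≤ 1 := measureReal_le_one
    have h4 : δ * ‖x‖ ^ 2 * ∫ ξ in BB V k, ‖ξ‖ ^ 2 ∂P ≤ δ * ‖x‖ ^ 2 * ((1 + 4 * C) * 2 ^ k) := by
      gcongr
    have h5 : δ * ‖x‖ ^ 2 * ((1 + 4 * C) * 2 ^ k) = ‖x‖ ^ 2 * (1 + 4 * C) * (δ * 2 ^ k) := by ring
    rw [h5, hδk, mul_one] at h4
    linarith
  rw [abs_le] at e1 e4 ⊢
  constructor <;> linarith [e1.1, e1.2, e4.1, e4.2]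

/-- The approximating `L¹` seminorms. -/
noncomputable def NN (P : Measure V) (k : ℕ) (x : V) : ℝ :=
  kap / (k * Real.log 2) * ∫ ξ in BB V k, |⟪x, ξ⟫| ∂P

theorem tendsto_NN {P : Measure V} [IsProbabilityMeasure P] {N : V → ℝ} (hN0 : ∀ x, 0 ≤ N x)
    (hNs : ∀ (t : ℝ) x, N (t • x) = |t| * N x) (hP : ∀ x, charFun P x = ((Real.exp (-N x) : ℝ) : ℂ))
    (x : V) : Tendsto (fun k => NN P k x) atTop (𝓝 (N x)) := by
  obtain ⟨C, hC⟩ := key_bound hN0 hNs hP x
  have hlog : 0 < Real.log 2 := Real.log_pos one_lt_two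
  have h1 : Tendsto (fun k : ℕ => C / (k * Real.log 2)) atTop (𝓝 0) := by
    have : Tendsto (fun k : ℕ => (k : ℝ) * Real.log 2) atTop atTop :=
      tendsto_natCast_atTop_atTop.atTop_mul_const hlog
    exact this.const_div_atTop C
  rw [tendsto_iff_norm_sub_tendsto_zero]
  refine squeeze_zero' (Filter.Eventually.of_forall fun k => norm_nonneg _) ?_ h1
  filter_upwards [eventually_gt_atTop 0] with k hk
  have hk' : (0 : ℝ) < k := by exact_mod_cast hk
  have hpos : 0 < (k : ℝ) * Real.log 2 := by positivity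
  have h2 : NN P k x - N x = (kap * (∫ ξ in BB V k, |⟪x, ξ⟫| ∂P) - (k * Real.log 2) * N x) /
      (k * Real.log 2) := by
    unfold NN
    field_simp
  rw [h2, norm_div, Real.norm_eq_abs, Real.norm_eq_abs, abs_of_pos hpos]
  exact div_le_div_of_nonneg_right (hC k) hpos.le

end Pool.Agent.H506R3.Mag
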