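import Pool.Agent.H506R3.Mag.CutInt
import Pool.Agent.H506R3.Mag.Lim3

set_option autoImplicit false
set_option linter.unusedSectionVars false

namespace Pool.Agent.H506R3.Mag

open MeasureTheory Finset Filter Topology
open scoped RealInnerProductSpace NNReal ENNReal

variable {V : Type*} [NormedAddCommGroup V] [InnerProductSpace ℝ V] [FiniteDimensional ℝ V]
  [MeasurableSpace V] [BorelSpace V]

lemma exp_int {N : V → ℝ} (hc : Continuous N) {c : ℝ} (hc0 : 0 < c) (hlow : ∀ x, c * ‖x‖ ≤ N x) :
    Integrable (fun x : V => Real.exp (-N x)) := by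
  set n : ℕ := Module.finrank ℝ V + 1 with hn
  have h1 : Integrable (fun x : V => (1 + ‖x‖) ^ (-(n : ℝ))) :=
    integrable_one_add_norm (by rw [hn]; push_cast; linarith)
  refine (h1.const_mul ((n.factorial : ℝ) * Real.exp c / c ^ n)).mono'
    (by fun_prop : Continuous _).aestronglyMeasurable (Filter.Eventually.of_forall fun x => ?_)
  rw [Real.norm_eq_abs, abs_of_pos (Real.exp_pos _)]
  have hx : 0 < 1 + ‖x‖ := by positivity
  have h2 := Real.pow_div_factorial_le_exp (c * (1 + ‖x‖)) (by positivity) n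
  have h3 : Real.exp (-N x) ≤ Real.exp (-(c * ‖x‖)) := Real.exp_le_exp.2 (by linarith [hlow x])
  refine h3.trans ?_
  rw [Real.rpow_neg hx.le, Real.rpow_natCast, Real.exp_neg]
  rw [← div_eq_mul_inv, div_div, le_div_iff₀ (by positivity), inv_mul_eq_div,
    div_le_iff₀ (Real.exp_pos _)]
  rw [div_le_iff₀ (by positivity), mul_pow] at h2
  have h4 : Real.exp (c * (1 + ‖x‖)) = Real.exp c * Real.exp (c * ‖x‖) := by
    rw [← Real.exp_add]; congr 1; ring
  rw [h4] at h2
  nlinarith

/-- The main inequality: a block perturbation of a measure does not decrease its energy much. -/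
theorem main_ineq {N : V → ℝ} (hc : Continuous N) {c : ℝ} (hc0 : 0 < c)
    (hlow : ∀ x, c * ‖x‖ ≤ N x) (hNs : ∀ (t : ℝ) x, N (t • x) = |t| * N x)
    (hpsd : PSDFun fun x : V => Real.exp (-N x)) :
    ∃ C : ℝ, 0 ≤ C ∧ ∀ (ι κ : Type) [Fintype ι] [DecidableEq ι] [Fintype κ] [DecidableEq κ]
      (z : ι → V) (x : κ → V) (b : ι → κ) (r : ℝ), 0 ≤ r → (∀ i, ‖z i - x (b i)‖ ≤ r) →
      ∀ w : ι → ℝ, (∑ k, ∑ l, (∑ i with b i = k, w i) * (∑ i with b i = l, w i) *
        Real.exp (-N (x k - x l))) -
        (C * r * (Fintype.card κ)) * (∑ k, |∑ i with b i = k, w i|) ^ 2 ≤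
        ∑ i, ∑ j, w i * w j * Real.exp (-N (z i - z j)) := by
  have hN0 : ∀ x, 0 ≤ N x := fun x => (mul_nonneg hc0.le (norm_nonneg x)).trans (hlow x)
  have hNzero : N 0 = 0 := by have := hNs 0 0; simpa using this
  have hNneg : ∀ x, N (-x) = N x := by
    intro x
    have := hNs (-1) x
    simpa using this
  obtain ⟨P, hPp, hP⟩ := bochner hpsd (by fun_prop) (fun x => by
    rw [abs_of_pos (Real.exp_pos _)]
    exact Real.exp_le_one_iff.2 (neg_nonpos.2 (hN0 x))) (exp_int hc hc0 hlow)
    (fun x => by rw [hNneg]) (by rw [hNzero]; simp)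
  let B := stdOrthonormalBasis ℝ V
  refine ⟨2 * ∑ i, N (B i), by
    have : 0 ≤ ∑ i, N (B i) := Finset.sum_nonneg fun i _ => hN0 _
    positivity, ?_⟩
  intro ι κ _ _ _ _ z x b r hr hbr w
  have hlim := fun y => tendsto_NN hN0 hNs hP y
  -- extended point set
  have key : ∀ n : ℕ, (∑ k, ∑ l, (∑ i with b i = k, w i) * (∑ i with b i = l, w i) *
        Real.exp (-NN P n (x k - x l))) -
        (2 * (∑ i, NN P n (B i)) * r * (Fintype.card κ)) * (∑ k, |∑ i with b i = k, w i|) ^ 2 ≤
        ∑ i, ∑ j, w i * w j * Real.exp (-NN P n (z i - z j)) := by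
    intro n
    set cn : ℝ := kap / (n * Real.log 2) with hcn
    have hcn0 : 0 ≤ cn := div_nonneg kap_nonneg (by
      have := Real.log_pos one_lt_two
      positivity)
    let Q : Measure V := (ENNReal.ofReal cn) • P.restrict (BB V n)
    have hQf : IsFiniteMeasure Q := by
      have : IsFiniteMeasure (P.restrict (BB V n)) := inferInstance
      exact Measure.smul_finite _ ENNReal.ofReal_ne_top
    have hQi : Integrable (fun ξ : V => ‖ξ‖) Q := by
      refine Integrable.smul_measure ?_ ENNReal.ofReal_ne_top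
      refine Integrable.mono' (g := fun _ => ((2 : ℝ) ^ n)) (integrable_const _)
        (by fun_prop : Continuous _).aestronglyMeasurable ?_
      refine (ae_restrict_iff' (BB_meas n)).2 (Filter.Eventually.of_forall fun ξ hξ => ?_)
      rw [norm_norm]
      exact hξ
    have hQN : ∀ y : V, ∫ ξ, |⟪y, ξ⟫| ∂Q = NN P n y := by
      intro y
      rw [integral_smul_measure, ENNReal.toReal_ofReal hcn0]
      rfl
    let z' : ι ⊕ κ → V := Sum.elim z x
    let b' : ι ⊕ κ → κ := Sum.elim b id
    let w' : ι ⊕ κ → ℝ := Sum.elim w 0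
    have h1 := block_int Q hQi z' x b' Sum.inr (fun k => rfl) (fun k => rfl) hr (by
      rintro (i | k)
      · exact hbr i
      · simpa [z', b'] using hr) w'
    simp_rw [hQN] at h1
    have h2 : ∀ k, ∑ i with b' i = k, w' i = ∑ i with b i = k, w i := by
      intro k
      rw [Finset.sum_filter, Finset.sum_filter, Fintype.sum_sum_type]
      have e0 : ∑ a : κ, (if b' (Sum.inr a) = k then w' (Sum.inr a) else 0) = 0 :=
        Finset.sum_eq_zero fun a _ => by simp [w']
      rw [e0, add_zero]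
      rfl
    simp_rw [h2] at h1
    have h3 : ∑ i, ∑ j, w' i * w' j * Real.exp (-NN P n (z' i - z' j)) =
        ∑ i, ∑ j, w i * w j * Real.exp (-NN P n (z i - z j)) := by
      rw [Fintype.sum_sum_type]
      simp_rw [Fintype.sum_sum_type]
      simp [w', z']
    rw [h3] at h1
    refine le_trans ?_ h1
    refine sub_le_sub_left ?_ _
    refine mul_le_mul_of_nonneg_right ?_ (sq_nonneg _)
    have h4 : ∫ ξ, ‖ξ‖ ∂Q ≤ ∑ i, NN P n (B i) := by
      have h5 : ∀ i, Integrable (fun ξ : V => |⟪B i, ξ⟫|) Q := by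
        intro i
        refine hQi.mono (by fun_prop : Continuous _).aestronglyMeasurable
          (Filter.Eventually.of_forall fun ξ => ?_)
        rw [Real.norm_eq_abs, abs_abs, norm_norm]
        refine (abs_real_inner_le_norm _ _).trans ?_
        rw [B.norm_eq_one, one_mul]
      calc ∫ ξ, ‖ξ‖ ∂Q ≤ ∫ ξ, ∑ i, |⟪B i, ξ⟫| ∂Q := by
            refine integral_mono hQi (integrable_finsetSum _ fun i _ => h5 i) fun ξ => ?_
            simp only
            conv_lhs => rw [← B.sum_repr' ξ]
            refine (norm_sum_le _ _).trans (Finset.sum_le_sum fun i _ => ?_)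
            rw [norm_smul, B.norm_eq_one, mul_one, Real.norm_eq_abs]
        _ = ∑ i, NN P n (B i) := by
            rw [integral_finsetSum _ fun i _ => h5 i]
            simp_rw [hQN]
    calc 2 * r * (Fintype.card κ) * ∫ ξ, ‖ξ‖ ∂Q ≤ 2 * r * (Fintype.card κ) * ∑ i, NN P n (B i) := by
          gcongr
      _ = _ := by ring
  have hL : Tendsto (fun n : ℕ => (∑ k, ∑ l, (∑ i with b i = k, w i) * (∑ i with b i = l, w i) *
        Real.exp (-NN P n (x k - x l))) -
        (2 * (∑ i, NN P n (B i)) * r * (Fintype.card κ)) * (∑ k, |∑ i with b i = k, w i|) ^ 2) atTop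
      (𝓝 ((∑ k, ∑ l, (∑ i with b i = k, w i) * (∑ i with b i = l, w i) *
        Real.exp (-N (x k - x l))) -
        (2 * (∑ i, N (B i)) * r * (Fintype.card κ)) * (∑ k, |∑ i with b i = k, w i|) ^ 2)) := by
    refine Tendsto.sub ?_ ?_
    · refine tendsto_finset_sum _ fun k _ => tendsto_finset_sum _ fun l _ => ?_
      exact ((Real.continuous_exp.tendsto _).comp (hlim _).neg).const_mul _
    · refine Tendsto.mul_const _ (Tendsto.mul_const _ (Tendsto.mul_const _ (Tendsto.const_mul _ ?_)))
      exact tendsto_finset_sum _ fun i _ => hlim _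
  have hR : Tendsto (fun n : ℕ => ∑ i, ∑ j, w i * w j * Real.exp (-NN P n (z i - z j))) atTop
      (𝓝 (∑ i, ∑ j, w i * w j * Real.exp (-N (z i - z j)))) := by
    refine tendsto_finset_sum _ fun k _ => tendsto_finset_sum _ fun l _ => ?_
    exact ((Real.continuous_exp.tendsto _).comp (hlim _).neg).const_mul _
  exact le_of_tendsto_of_tendsto' hL hR key

end Pool.Agent.H506R3.Mag
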